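import Pool.Agent.Lib.MP_8501c9_pr.Var.Sums
import Mathlib.MeasureTheory.Integral.IntervalIntegral.LebesgueDifferentiationThm

/-!
# Windows of an admissible density
-/

set_option autoImplicit false
open Set MeasureTheory

namespace Pool.Agent.Lib.MP_8501c9_pr.Var

/-- integral over a window -/
noncomputable def win (N : ℕ) (g : ℝ → ℝ) (τ : ℤ) : ℝ := ∫ x in (τ / N : ℝ)..((τ + 1) / N), g x

theorem win_hasSum {N : ℕ} (hN : 1 ≤ N) {g : ℝ → ℝ} (hg : Integrable g) :
    HasSum (win N g) (∫ x, g x) := by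
  have hN0 : (0 : ℝ) < N := by exact_mod_cast hN
  have hp : (0 : ℝ) < 1 / N := by positivity
  have h1 := hasSum_integral_iUnion (μ := volume) (f := g)
    (s := fun n : ℤ => Ioc (n • (1 / (N : ℝ))) ((n + 1) • (1 / (N : ℝ))))
    (fun _ => measurableSet_Ioc) (pairwise_disjoint_Ioc_zsmul (1 / (N : ℝ)))
    (by rw [iUnion_Ioc_zsmul hp]; exact hg.integrableOn)
  rw [iUnion_Ioc_zsmul hp, setIntegral_univ] at h1
  have h2 : win N g = fun n : ℤ => ∫ x in Ioc (n • (1 / (N : ℝ))) ((n + 1) • (1 / (N : ℝ))), g x := by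
    funext n
    unfold win
    rw [intervalIntegral.integral_of_le (by gcongr; linarith)]
    congr 2
    simp only [zsmul_eq_mul]
    push_cast
    congr 1 <;> ring
  rw [h2]
  exact h1

theorem Pre.nat {p : ℝ → ℝ} (h : Pre p) : ∃ K : ℕ, 1 ≤ K ∧ ∀ x, (K : ℝ) ≤ |x| → p x = 0 := by
  obtain ⟨K, hK⟩ := h.supp
  obtain ⟨n, hn⟩ := exists_nat_ge K
  refine ⟨n + 1, by omega, fun x hx => hK x ?_⟩
  push_cast at hx
  linarith

theorem Pre.sfin {p : ℝ → ℝ} (h : Pre p) (x : ℝ) : Summable fun k : ℤ => p (x + k) := by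
  obtain ⟨K, hK⟩ := h.supp
  obtain ⟨n, hn⟩ := exists_nat_ge (K + |x|)
  refine FS.summable ⟨n, fun k hk => hK _ ?_⟩
  have h1 : (n : ℝ) ≤ |(k : ℝ)| := by exact_mod_cast hk
  have h2 : |(k : ℝ)| ≤ |x + k| + |x| := by
    have := abs_add_le (x + k) (-x)
    rw [abs_neg] at this
    have e : x + (k : ℝ) + -x = k := by ring
    rwa [e] at this
  linarith

theorem Pre.le_one {p : ℝ → ℝ} (h : Pre p) (x : ℝ) : p x ≤ 1 := by
  have h1 := (h.sfin x).le_tsum 0 fun k _ => h.nonneg _
  rw [h.tile] at h1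
  simpa using h1

theorem integrable_bdd {g : ℝ → ℝ} (hm : AEStronglyMeasurable g volume) {K C : ℝ}
    (hC : ∀ x, |g x| ≤ C) (hK : ∀ x, K ≤ |x| → g x = 0) : Integrable g := by
  have h1 : Integrable (indicator (Icc (-K) K) fun _ => C) volume := by
    rw [integrable_indicator_iff measurableSet_Icc]
    exact integrableOn_const (by simp) (by simp)
  refine h1.mono' hm (Filter.Eventually.of_forall fun x => ?_)
  rw [Real.norm_eq_abs]
  by_cases hx : x ∈ Icc (-K) K
  · rw [indicator_of_mem hx]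
    exact hC x
  · rw [indicator_of_notMem hx, hK x ?_, abs_zero]
    by_contra hc
    push Not at hc
    rw [abs_lt] at hc
    exact hx ⟨hc.1.le, hc.2.le⟩

theorem Pre.integrable {p : ℝ → ℝ} (h : Pre p) : Integrable p := by
  obtain ⟨K, hK⟩ := h.supp
  exact integrable_bdd h.meas.aestronglyMeasurable
    (fun x => by rw [abs_of_nonneg (h.nonneg x)]; exact h.le_one x) hK

theorem Pre.ii {p : ℝ → ℝ} (h : Pre p) (a b : ℝ) : IntervalIntegrable p volume a b :=
  h.integrable.intervalIntegrable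

theorem Pre.int_le {p : ℝ → ℝ} (h : Pre p) {a b : ℝ} (hab : a ≤ b) : ∫ x in a..b, p x ≤ b - a := by
  have h1 := intervalIntegral.integral_mono_on hab (h.ii a b)
    (intervalIntegrable_const (c := (1 : ℝ))) fun x _ => h.le_one x
  simpa using h1

theorem Pre.int_nonneg {p : ℝ → ℝ} (h : Pre p) {a b : ℝ} (hab : a ≤ b) : 0 ≤ ∫ x in a..b, p x :=
  intervalIntegral.integral_nonneg hab fun x _ => h.nonneg x

theorem Pre.mass_nonneg {p : ℝ → ℝ} (h : Pre p) (x : ℝ) : 0 ≤ mass p x :=
  h.int_nonneg (by linarith)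

theorem Pre.mass_le_one {p : ℝ → ℝ} (h : Pre p) (x : ℝ) : mass p x ≤ 1 := by
  have := h.int_le (a := x) (b := x + 1) (by linarith)
  unfold mass
  linarith

theorem Pre.mass_sub {p : ℝ → ℝ} (h : Pre p) (a x : ℝ) :
    mass p x - mass p a = (∫ y in (a + 1)..(x + 1), p y) - ∫ y in a..x, p y := by
  unfold mass
  have h1 := intervalIntegral.integral_add_adjacent_intervals (h.ii a x) (h.ii x (x + 1))
  have h2 := intervalIntegral.integral_add_adjacent_intervals (h.ii a (a + 1))
    (h.ii (a + 1) (x + 1))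
  linarith

theorem Pre.mass_upper {p : ℝ → ℝ} (h : Pre p) {a x : ℝ} (hx : a ≤ x) :
    mass p x ≤ mass p a + (x - a) := by
  have h1 := h.mass_sub a x
  have h2 := h.int_le (a := a + 1) (b := x + 1) (by linarith)
  have h3 := h.int_nonneg hx
  linarith

theorem Pre.mass_lower {p : ℝ → ℝ} (h : Pre p) {a x : ℝ} (hx : a ≤ x) :
    mass p a - (x - a) ≤ mass p x := by
  have h1 := h.mass_sub a x
  have h2 := h.int_le hx
  have h3 := h.int_nonneg (a := a + 1) (b := x + 1) (by linarith)
  linarith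

theorem Pre.mass_cont {p : ℝ → ℝ} (h : Pre p) : Continuous (mass p) := by
  rw [Metric.continuous_iff]
  intro a ε hε
  refine ⟨ε, hε, fun x hx => ?_⟩
  rw [Real.dist_eq] at hx ⊢
  rcases le_total a x with hax | hax
  · have h1 := h.mass_upper hax
    have h2 := h.mass_lower hax
    rw [abs_of_nonneg (by linarith)] at hx
    rw [abs_lt]
    constructor <;> linarith
  · have h1 := h.mass_upper hax
    have h2 := h.mass_lower hax
    rw [abs_of_nonpos (by linarith)] at hx
    rw [abs_lt]
    constructor <;> linarith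

/-- almost everywhere the mass does not vanish where the density is positive -/
theorem Pre.mass_pos {p : ℝ → ℝ} (h : Pre p) : ∀ᵐ x, 0 < p x → 0 < mass p x := by
  filter_upwards [_root_.LocallyIntegrable.ae_hasDerivAt_integral
    h.integrable.locallyIntegrable] with x hx hp
  by_contra hc
  have h0 : mass p x = 0 := le_antisymm (not_lt.1 hc) (h.mass_nonneg x)
  have h1 := (hx x).hasDerivWithinAt (s := Ici x)
  have h2 : HasDerivWithinAt (fun u => ∫ t in x..u, p t) 0 (Ici x) x := by
    refine (hasDerivWithinAt_const x (Ici x) (0 : ℝ)).congr_of_eventuallyEq ?_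
      (by simp)
    have h3 : Icc x (x + 1) ∈ nhdsWithin x (Ici x) := Icc_mem_nhdsGE (by linarith)
    filter_upwards [h3] with u hu
    have h4 := intervalIntegral.integral_add_adjacent_intervals (h.ii x u) (h.ii u (x + 1))
    have h5 := h.int_nonneg hu.1
    have h6 := h.int_nonneg hu.2
    unfold mass at h0
    linarith
  have h3 := (uniqueDiffWithinAt_Ici x).eq_deriv _ h1 h2
  linarith

theorem Pre.mass_win {p : ℝ → ℝ} (h : Pre p) {N : ℕ} (hN : 1 ≤ N) (τ : ℤ) :
    mass p (τ / N) = wm N (win N p) τ := by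
  have hN0 : (0 : ℝ) < N := by exact_mod_cast hN
  unfold mass wm win
  have h1 := intervalIntegral.sum_integral_adjacent_intervals
    (f := p) (μ := volume) (a := fun i : ℕ => ((τ : ℝ) + i) / N) (n := N)
    (fun i _ => h.ii _ _)
  have h2 : ((τ : ℝ) + (N : ℝ)) / N = τ / N + 1 := by field_simp
  simp only [Nat.cast_zero, add_zero] at h1
  rw [h2] at h1
  rw [← h1]
  refine Finset.sum_congr rfl fun i _ => ?_
  push_cast
  rw [add_assoc]

theorem win_zero {p : ℝ → ℝ} {K N : ℕ} (hN : 1 ≤ N) (hK : ∀ x, (K : ℝ) ≤ |x| → p x = 0) {τ : ℤ}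
    (hτ : (K * N + 1 : ℤ) ≤ |τ|) : win N p τ = 0 := by
  have hN0 : (0 : ℝ) < N := by exact_mod_cast hN
  unfold win
  refine intervalIntegral.integral_zero_ae (Filter.Eventually.of_forall fun x hx => hK x ?_)
  rw [uIoc_of_le (by gcongr; linarith)] at hx
  rw [le_abs] at hτ ⊢
  rcases hτ with h1 | h1
  · left
    have h2 : (K * N + 1 : ℝ) ≤ τ := by exact_mod_cast h1
    have h3 : (K : ℝ) ≤ τ / N := by rw [le_div_iff₀ hN0]; linarith
    linarith [hx.1]
  · right
    have h2 : (K * N + 1 : ℝ) ≤ -τ := by exact_mod_cast h1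
    have h3 : ((τ : ℝ) + 1) / N ≤ -K := by rw [div_le_iff₀ hN0]; linarith
    linarith [hx.2]

theorem Pre.dadm {p : ℝ → ℝ} (h : Pre p) {N : ℕ} (hN : 1 ≤ N) : DAdm N (win N p) := by
  have hN0 : (0 : ℝ) < N := by exact_mod_cast hN
  obtain ⟨K, hK1, hK⟩ := h.nat
  refine ⟨fun τ => ?_, ⟨K * N + 1, fun τ hτ => win_zero hN hK (by exact_mod_cast hτ)⟩,
    fun w hw => ?_⟩
  · exact h.int_nonneg (by gcongr; linarith)
  · have h1 : ∀ j : ℤ, win N p (w + j * N) =
        ∫ x in ((w : ℝ) / N)..((w + 1) / N), p (x + j) := by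
      intro j
      rw [intervalIntegral.integral_comp_add_right]
      unfold win
      push_cast
      congr 1
      · field_simp
      · field_simp
        ring
    set S : Finset ℤ := Finset.Icc (-(K + 1 : ℤ)) (K + 1) with hS
    have h2 : ∀ x ∈ Icc (0 : ℝ) 1, ∀ j : ℤ, j ∉ S → p (x + j) = 0 := by
      intro x hx j hj
      apply hK
      rw [hS, Finset.mem_Icc, not_and_or] at hj
      rw [le_abs]
      rcases hj with hj | hj
      · right
        have h3 : (j : ℝ) ≤ -(K + 2 : ℝ) := by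
          have : j ≤ -(K + 2 : ℤ) := by omega
          exact_mod_cast this
        linarith [hx.2]
      · left
        have h3 : (K + 2 : ℝ) ≤ j := by
          have : (K + 2 : ℤ) ≤ j := by omega
          exact_mod_cast this
        linarith [hx.1]
    have hsub : ∀ x ∈ Icc ((w : ℝ) / N) ((w + 1) / N), x ∈ Icc (0 : ℝ) 1 := by
      intro x hx
      refine ⟨le_trans (by positivity) hx.1, hx.2.trans ?_⟩
      rw [div_le_one hN0]
      exact_mod_cast hw
    have hle : (w : ℝ) / N ≤ (w + 1) / N := by gcongr; linarith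
    rw [tsum_congr h1, tsum_eq_sum (s := S)]
    · rw [← intervalIntegral.integral_finsetSum]
      · have h3 : ∫ x in ((w : ℝ) / N)..((w + 1) / N), ∑ j ∈ S, p (x + j) =
            ∫ x in ((w : ℝ) / N)..((w + 1) / N), (1 : ℝ) := by
          refine intervalIntegral.integral_congr fun x hx => ?_
          rw [uIcc_of_le hle] at hx
          show ∑ j ∈ S, p (x + j) = 1
          rw [← h.tile x]
          exact (tsum_eq_sum fun j hj => h2 x (hsub x hx) j hj).symm
        rw [h3, intervalIntegral.integral_const, smul_eq_mul, mul_one]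
        field_simp
        ring
      · intro j _
        exact (h.integrable.comp_add_right (j : ℝ)).intervalIntegrable
    · intro j hj
      refine intervalIntegral.integral_zero_ae (Filter.Eventually.of_forall fun x hx => ?_)
      rw [uIoc_of_le hle] at hx
      exact h2 x (hsub x ⟨hx.1.le, hx.2⟩) j hj

end Pool.Agent.Lib.MP_8501c9_pr.Var
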