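import Pool.Agent.Lib.MP_8501c9_pr.Var.Cont

/-!
# The functional of an admissible density and its windows
-/

set_option autoImplicit false
open Set MeasureTheory

namespace Pool.Agent.Lib.MP_8501c9_pr.Var

theorem log_div_ge {x y : ℝ} (hx : 0 < x) (hy : 0 < y) : x - y ≤ x * Real.log (x / y) := by
  have h1 := Real.log_le_sub_one_of_pos (div_pos hy hx)
  have h2 : Real.log (y / x) = -Real.log (x / y) := by
    rw [← Real.log_inv, inv_div]
  rw [h2] at h1
  have h3 := mul_le_mul_of_nonneg_left h1 hx.le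
  have h4 : x * (y / x - 1) = y - x := by field_simp
  rw [h4] at h3
  linarith

/-- the integrand, tangent line -/
theorem ent_point {P D c t : ℝ} (hP : 0 ≤ P) (hD : 0 < P → 0 < D) (hDc : D ≤ c) (hc : 0 < c)
    (ht : 0 < t) : P * Real.log t + P - t * c ≤ P * Real.log (P / D) := by
  rcases hP.eq_or_lt with h0 | h0
  · rw [← h0]
    have : 0 < t * c := mul_pos ht hc
    simp only [zero_mul, add_zero]
    linarith
  · have hD0 := hD h0
    have h1 : Real.log (P / c) ≤ Real.log (P / D) := by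
      apply Real.log_le_log (div_pos h0 hc)
      exact div_le_div_of_nonneg_left h0.le hD0 hDc
    have h2 := log_div_ge h0 (mul_pos ht hc)
    have h3 : Real.log (P / (t * c)) = Real.log (P / c) - Real.log t := by
      rw [mul_comm, ← div_div, Real.log_div (div_pos h0 hc).ne' ht.ne']
    rw [h3] at h2
    have h4 := mul_le_mul_of_nonneg_left h1 h0.le
    linarith

theorem win_entropy {p : ℝ → ℝ} (h : Adm p) {N : ℕ} (hN : 1 ≤ N) (τ : ℤ) :
    win N p τ * Real.log (N * win N p τ / (wm N (win N p) τ + 1 / N)) ≤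
      win N (fun x => p x * Real.log (p x / mass p x)) τ := by
  have hN0 : (0 : ℝ) < N := by exact_mod_cast hN
  set Φ := win N p τ with hΦ
  set c := wm N (win N p) τ + 1 / N with hc
  have hd := h.dadm hN
  have hΦ0 : 0 ≤ Φ := hd.nonneg τ
  have hc0 : 0 < c := by have := wm_nonneg (N := N) hd.nonneg τ; positivity
  have hle : (τ : ℝ) / N ≤ (τ + 1) / N := by gcongr; linarith
  set W := win N (fun x => p x * Real.log (p x / mass p x)) τ with hW
  -- the tangent line inequality
  have key : ∀ t : ℝ, 0 < t → Φ * Real.log t + Φ - t * c / N ≤ W := by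
    intro t ht
    have h1 : ∫ x in (τ / N : ℝ)..((τ + 1) / N), (p x * Real.log t + p x - t * c) ≤ W := by
      rw [hW]
      unfold win
      refine intervalIntegral.integral_mono_ae_restrict hle ?_ ?_ ?_
      · exact (((h.ii _ _).mul_const _).add (h.ii _ _)).sub intervalIntegrable_const
      · exact h.int.intervalIntegrable
      · rw [Filter.EventuallyLE, ae_restrict_iff' measurableSet_Icc]
        filter_upwards [h.mass_pos] with x hx hxI
        refine ent_point (h.nonneg x) hx ?_ hc0 ht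
        have h2 := h.mass_upper hxI.1
        rw [h.mass_win hN] at h2
        have h3 : x - τ / N ≤ 1 / N := by
          have := hxI.2
          rw [add_div] at this
          linarith
        linarith
    rw [intervalIntegral.integral_sub (((h.ii _ _).mul_const _).add (h.ii _ _))
      intervalIntegrable_const, intervalIntegral.integral_add ((h.ii _ _).mul_const _) (h.ii _ _),
      intervalIntegral.integral_mul_const, intervalIntegral.integral_const, smul_eq_mul] at h1
    have h4 : ((τ : ℝ) + 1) / N - τ / N = 1 / N := by ring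
    rw [h4] at h1
    have h5 : ∫ x in (τ / N : ℝ)..((τ + 1) / N), p x = Φ := rfl
    rw [h5] at h1
    have h6 : 1 / (N : ℝ) * (t * c) = t * c / N := by ring
    rw [h6] at h1
    exact h1
  rcases hΦ0.eq_or_lt with h0 | h0
  · rw [← h0, zero_mul]
    by_contra hneg
    push Not at hneg
    have h1 := key (-W * N / (2 * c)) (by apply div_pos (mul_pos (by linarith) hN0) (by linarith))
    rw [← h0, zero_mul, zero_add] at h1
    have h2 : -W * N / (2 * c) * c / N = -W / 2 := by field_simp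
    rw [h2] at h1
    linarith
  · have h1 := key (N * Φ / c) (by positivity)
    have h2 : N * Φ / c * c / N = Φ := by field_simp
    rw [h2] at h1
    linarith

theorem floor_win {N : ℕ} (hN : 1 ≤ N) {τ : ℤ} {x : ℝ} (h1 : (τ : ℝ) / N ≤ x)
    (h2 : x < (τ + 1) / N) : ⌊x⌋ = τ / (N : ℤ) := by
  have hN0 : (0 : ℝ) < N := by exact_mod_cast hN
  have hNz : (0 : ℤ) < N := by exact_mod_cast hN
  have e1 := Int.emod_nonneg τ hNz.ne'
  have e2 := Int.emod_lt_of_pos τ hNz
  have e3 := Int.emod_add_mul_ediv τ N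
  rw [Int.floor_eq_iff]
  constructor
  · refine le_trans ?_ h1
    rw [le_div_iff₀ hN0]
    have : τ / (N : ℤ) * N ≤ τ := by linarith
    exact_mod_cast this
  · refine lt_of_lt_of_le h2 ?_
    rw [div_le_iff₀ hN0]
    have : τ + 1 ≤ (τ / (N : ℤ) + 1) * N := by linarith
    exact_mod_cast this

theorem pen_nonneg (N : ℕ) (τ : ℤ) : 0 ≤ pen N τ := by
  unfold pen
  have : 0 ≤ (τ / (N : ℤ)) * (τ / (N : ℤ) + 1) := by
    rcases le_or_gt 0 (τ / (N : ℤ)) with h | h
    · positivity
    · nlinarith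
  exact_mod_cast this

theorem cfun_nonneg (x : ℝ) : 0 ≤ (⌊x⌋ * (⌊x⌋ + 1) : ℝ) := by
  have : 0 ≤ ⌊x⌋ * (⌊x⌋ + 1) := by
    rcases le_or_gt 0 ⌊x⌋ with h | h
    · positivity
    · nlinarith
  exact_mod_cast this

theorem cfun_le {L : ℕ} {x : ℝ} (hx : |x| < L) : (⌊x⌋ * (⌊x⌋ + 1) : ℝ) ≤ L * (L + 1) := by
  rw [abs_lt] at hx
  have h1 : ⌊x⌋ < L := by
    rw [Int.floor_lt]
    exact_mod_cast hx.2
  have h2 : -(L : ℤ) ≤ ⌊x⌋ := by
    rw [Int.le_floor]
    push_cast
    exact hx.1.le
  have : ⌊x⌋ * (⌊x⌋ + 1) ≤ L * (L + 1) := by nlinarith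
  exact_mod_cast this

theorem Pre.mass_zero {p : ℝ → ℝ} {K : ℕ} (hK : ∀ x, (K : ℝ) ≤ |x| → p x = 0) {x : ℝ}
    (hx : (K + 1 : ℝ) ≤ |x|) : mass p x = 0 := by
  unfold mass
  refine intervalIntegral.integral_zero_ae (Filter.Eventually.of_forall fun y hy => hK y ?_)
  rw [uIoc_of_le (by linarith)] at hy
  rw [le_abs] at hx ⊢
  rcases hx with h1 | h1
  · left
    linarith [hy.1]
  · right
    linarith [hy.2]

theorem Pre.energy_int {p : ℝ → ℝ} (h : Pre p) :
    Integrable fun x => (⌊x⌋ * (⌊x⌋ + 1) : ℝ) * mass p x := by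
  obtain ⟨K, -, hK⟩ := h.nat
  refine integrable_bdd (K := K + 1) (C := (K + 1 : ℕ) * ((K + 1 : ℕ) + 1)) ?_ (fun x => ?_)
    (fun x hx => by rw [Pre.mass_zero hK hx, mul_zero])
  · have hf : Measurable fun x : ℝ => ((⌊x⌋ : ℤ) : ℝ) :=
      (measurable_from_top (f := fun z : ℤ => (z : ℝ))).comp Int.measurable_floor
    exact ((hf.mul (hf.add_const 1)).mul h.mass_cont.measurable).aestronglyMeasurable
  · rw [abs_of_nonneg (mul_nonneg (cfun_nonneg x) (h.mass_nonneg x))]
    rcases lt_or_ge |x| ((K + 1 : ℕ) : ℝ) with h1 | h1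
    · calc (⌊x⌋ * (⌊x⌋ + 1) : ℝ) * mass p x ≤ (⌊x⌋ * (⌊x⌋ + 1) : ℝ) * 1 :=
            mul_le_mul_of_nonneg_left (h.mass_le_one x) (cfun_nonneg x)
        _ ≤ _ := by rw [mul_one]; exact cfun_le h1
    · rw [Pre.mass_zero hK (by push_cast at h1; exact h1), mul_zero]
      positivity

theorem win_energy {p : ℝ → ℝ} (h : Pre p) {N : ℕ} (hN : 1 ≤ N) (τ : ℤ) :
    pen N τ * (wm N (win N p) τ - 1 / N) / N ≤
      win N (fun x => (⌊x⌋ * (⌊x⌋ + 1) : ℝ) * mass p x) τ := by
  have hN0 : (0 : ℝ) < N := by exact_mod_cast hN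
  have hle : (τ : ℝ) / N ≤ (τ + 1) / N := by gcongr; linarith
  have h1 : ∫ _x in (τ / N : ℝ)..((τ + 1) / N), pen N τ * (wm N (win N p) τ - 1 / N) ≤
      win N (fun x => (⌊x⌋ * (⌊x⌋ + 1) : ℝ) * mass p x) τ := by
    unfold win
    refine intervalIntegral.integral_mono_on_of_le_Ioo hle intervalIntegrable_const
      h.energy_int.intervalIntegrable fun x hx => ?_
    rw [floor_win hN hx.1.le hx.2]
    refine mul_le_mul_of_nonneg_left ?_ (pen_nonneg N τ)
    have h2 := h.mass_lower hx.1.le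
    rw [h.mass_win hN] at h2
    have h3 : x - τ / N ≤ 1 / N := by
      have := hx.2
      rw [add_div] at this
      linarith
    unfold win at h2
    linarith
  rw [intervalIntegral.integral_const, smul_eq_mul] at h1
  have h4 : ((τ : ℝ) + 1) / N - τ / N = 1 / N := by ring
  rw [h4] at h1
  calc _ = 1 / (N : ℝ) * (pen N τ * (wm N (win N p) τ - 1 / N)) := by ring
    _ ≤ _ := h1

end Pool.Agent.Lib.MP_8501c9_pr.Var
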