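import Pool.Agent.Lib.MP_8501c9_pr.Var.Sums
import Pool.Agent.Lib.MP_8501c9_pr.Wide.Vlim

/-!
# Weak duality: a certificate bounds the discrete functional
-/

set_option autoImplicit false
open Set MeasureTheory

namespace Pool.Agent.Lib.MP_8501c9_pr.Var

open Pool.Agent.Lib.MP_8501c9_pr.Wide

theorem wd_point {μ Φ A : ℝ} (hΦ : 0 ≤ Φ) (hA : 0 < A) (hμ : Φ ≤ μ) :
    Φ * (Real.log A - Real.log (Φ / μ) + 1) ≤ μ * A := by
  rcases hΦ.eq_or_lt with h0 | h0
  · rw [← h0, zero_mul]
    exact mul_nonneg (by rw [h0]; exact hμ) hA.le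
  · have hμ0 : 0 < μ := lt_of_lt_of_le h0 hμ
    have h1 := Real.add_one_le_exp (Real.log A - Real.log (Φ / μ))
    rw [Real.exp_sub, Real.exp_log hA, Real.exp_log (div_pos h0 hμ0)] at h1
    calc Φ * (Real.log A - Real.log (Φ / μ) + 1) ≤ Φ * (A / (Φ / μ)) :=
          mul_le_mul_of_nonneg_left h1 h0.le
      _ = μ * A := by field_simp

theorem weak_disc {κ V R P h₀ : ℝ} {k : ℕ} {f : ℝ → ℤ → ℝ} {y : ℝ → ℝ} {ρ : ℝ}
    (h : UCert κ V R P h₀ k f y ρ) {N : ℕ} (hN : 1 ≤ N) (hNh : 1 / (N : ℝ) ≤ h₀)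
    {Φ : ℤ → ℝ} (hΦ : DAdm N Φ) :
    1 - ∑' τ : ℤ, Φ τ * Real.log (N * Φ τ / wm N Φ τ) - κ / N * ∑' τ : ℤ, pen N τ * wm N Φ τ ≤
      V + k * Real.log R / N := by
  have hN0 : (0 : ℝ) < N := by exact_mod_cast hN
  have hNz : (0 : ℤ) < N := by exact_mod_cast hN
  have hR : 1 ≤ R := (h.f_ge 0 0).trans (h.f_le 0 0)
  have hR0 : 0 < R := by linarith
  have hf0 : ∀ s j, 0 < f s j := fun s j => lt_of_lt_of_le one_pos (h.f_ge s j)
  have hy0 : ∀ s, 0 < y s := fun s => lt_of_lt_of_le (by positivity) (h.y_ge s)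
  set μ : ℤ → ℝ := wm N Φ with hμ
  have hμ0 : ∀ τ, 0 ≤ μ τ := wm_nonneg hΦ.nonneg
  have hΦμ : ∀ τ, Φ τ ≤ μ τ := le_wm hN hΦ.nonneg
  set a : ℤ → ℝ := fun τ => Real.log (f (((τ % N : ℤ) : ℝ) / N) (-(τ / N))) with ha
  set b : ℤ → ℝ := fun τ => Real.log (f (((τ % N : ℤ) : ℝ) / N + 1 / N) (-(τ / N))) with hb
  set Y : ℤ → ℝ := fun τ => y (((τ % N : ℤ) : ℝ) / N) with hY
  -- the end of a window is the start of the next one
  have hab : ∀ τ, a (τ + 1) ≤ b τ := by
    intro τ
    have e1 := Int.emod_nonneg τ hNz.ne'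
    have e2 := Int.emod_lt_of_pos τ hNz
    have e3 := Int.emod_add_mul_ediv τ N
    rcases lt_or_ge (τ % N + 1) N with hlt | hge
    · have e4 : (τ + 1) % N = τ % N + 1 := by
        rw [Int.emod_eq_iff hNz.ne']
        refine ⟨by omega, by rw [Int.natAbs_natCast]; exact_mod_cast hlt, ⟨-(τ / N), by linarith⟩⟩
      have e5 : (τ + 1) / N = τ / N := by
        have e6 := Int.emod_add_mul_ediv (τ + 1) N
        rw [e4] at e6
        have e7 : (N : ℤ) * ((τ + 1) / N) = N * (τ / N) := by linarith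
        exact mul_left_cancel₀ hNz.ne' e7
      simp only [ha, hb]
      rw [e4, e5]
      push_cast
      rw [add_div]
    · have e8 : τ % N = N - 1 := by omega
      have e9 : τ + 1 = N * (τ / N + 1) := by linarith
      have e4 : (τ + 1) % N = 0 := by rw [e9, Int.mul_emod_right]
      have e5 : (τ + 1) / N = τ / N + 1 := by rw [e9, Int.mul_ediv_cancel_left _ hNz.ne']
      simp only [ha, hb]
      rw [e4, e5, e8]
      push_cast
      rw [zero_div, ← add_div, sub_add_cancel, div_self hN0.ne']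
      apply Real.log_le_log (hf0 _ _)
      have := h.shift (-(τ / N + 1))
      have e10 : -(τ / (N : ℤ) + 1) + 1 = -(τ / N) := by ring
      rwa [e10] at this
  -- the inequality of one window
  have hwin : ∀ τ, μ τ * (b τ - a τ) + Φ τ * (b (τ - N) - b τ) +
      (Φ τ + Φ τ * Real.log (Y τ) - Φ τ * Real.log (N * Φ τ / μ τ)) ≤
      μ τ * ρ / N + κ / N * (pen N τ * μ τ) := by
    intro τ
    have e1 := Int.emod_nonneg τ hNz.ne'
    have e2 := Int.emod_lt_of_pos τ hNz
    set s : ℝ := ((τ % N : ℤ) : ℝ) / N with hs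
    have hs0 : 0 ≤ s := div_nonneg (by exact_mod_cast e1) hN0.le
    have hs1 : s + 1 / N ≤ 1 := by
      rw [hs, ← add_div, div_le_one hN0]
      exact_mod_cast (by omega : τ % N + 1 ≤ N)
    have hst := h.step s (1 / N) (-(τ / N)) hs0 (by positivity) hNh hs1
    have e3 : (τ - N) % N = τ % N := by
      have := Int.sub_mul_emod_self_right τ 1 N
      rwa [one_mul] at this
    have e4 : (τ - N) / N = τ / N - 1 := by
      have := Int.add_mul_ediv_right τ (-1) hNz.ne'
      rw [← sub_eq_add_neg] at this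
      rw [← this]
      congr 1
      ring
    have hb' : b (τ - N) = Real.log (f (s + 1 / N) (-(τ / N) + 1)) := by
      simp only [hb]
      rw [e3, e4, ← hs]
      congr 2
      ring
    have hbτ : b τ = Real.log (f (s + 1 / N) (-(τ / N))) := rfl
    have haτ : a τ = Real.log (f s (-(τ / N))) := rfl
    have hYτ : Y τ = y s := rfl
    set F : ℝ := f (s + 1 / N) (-(τ / N) + 1) / f (s + 1 / N) (-(τ / N)) with hF
    have hF0 : 0 < F := div_pos (hf0 _ _) (hf0 _ _)
    have hFlog : Real.log F = b (τ - N) - b τ := by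
      rw [hF, Real.log_div (hf0 _ _).ne' (hf0 _ _).ne', hb', hbτ]
    have h1 := Real.log_le_log (mul_pos (hf0 _ _) (Real.exp_pos _)) hst
    rw [Real.log_mul (hf0 _ _).ne' (Real.exp_pos _).ne', Real.log_exp,
      Real.log_mul (Real.exp_pos _).ne' (hf0 _ _).ne', Real.log_exp, ← hbτ, ← haτ] at h1
    have h2 : min (κ * (((-(τ / N) : ℤ) : ℝ) * (((-(τ / N) : ℤ) : ℝ) - 1))) P ≤ κ * pen N τ := by
      refine (min_le_left _ _).trans (le_of_eq ?_)
      unfold pen
      push_cast
      ring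
    have h3 : b τ - a τ + 1 / N * y s * F ≤ 1 / N * (ρ + κ * pen N τ) := by
      have : 1 / (N : ℝ) * (ρ + min (κ * (((-(τ / N) : ℤ) : ℝ) * (((-(τ / N) : ℤ) : ℝ) - 1))) P) ≤
          1 / N * (ρ + κ * pen N τ) := by gcongr
      linarith
    have h4 := mul_le_mul_of_nonneg_left h3 (hμ0 τ)
    have hA : 0 < 1 / (N : ℝ) * y s * F := by have := hy0 s; positivity
    have h5 := wd_point (hΦ.nonneg τ) hA (hΦμ τ)
    have h6 : Real.log (1 / (N : ℝ) * y s * F) = -Real.log N + Real.log (y s) +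
        (b (τ - N) - b τ) := by
      rw [Real.log_mul (by have := hy0 s; positivity) hF0.ne',
        Real.log_mul (by positivity) (hy0 s).ne', hFlog, one_div, Real.log_inv]
    have h7 : Φ τ * Real.log (N * Φ τ / μ τ) =
        Φ τ * (Real.log N + Real.log (Φ τ / μ τ)) := by
      rcases (hΦ.nonneg τ).eq_or_lt with h0 | h0
      · rw [← h0, zero_mul, zero_mul]
      · rw [mul_div_assoc, Real.log_mul hN0.ne'
          (div_pos h0 (lt_of_lt_of_le h0 (hΦμ τ))).ne']
    rw [h6] at h5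
    rw [h7, hYτ]
    have h8 : μ τ * (1 / N * (ρ + κ * pen N τ)) = μ τ * ρ / N + κ / N * (pen N τ * μ τ) := by
      ring
    rw [h8] at h4
    nlinarith [h4, h5]
  -- summation
  have fΦ := hΦ.fs
  have fμ : FS μ := hΦ.fs.wm
  have s1 : Summable fun τ => μ τ * (b τ - a τ) + Φ τ * (b (τ - N) - b τ) :=
    ((fμ.mul_right _).add (fΦ.mul_right _)).summable
  have s2 : Summable fun τ => Φ τ + Φ τ * Real.log (Y τ) -
      Φ τ * Real.log (N * Φ τ / μ τ) :=
    ((fΦ.add (fΦ.mul_right _)).sub (fΦ.mul_right _)).summable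
  have s3 : Summable fun τ => μ τ * ρ / N := by
    have := (fμ.mul_right fun _ => ρ / N).summable
    exact this.congr fun τ => by ring
  have s4 : Summable fun τ => κ / N * (pen N τ * μ τ) := (fμ.mul_left (pen N)).summable.mul_left _
  have hsum := Summable.tsum_le_tsum hwin (s1.add s2) (s3.add s4)
  rw [s1.tsum_add s2, s3.tsum_add s4, tsum_mul_left] at hsum
  -- the telescoping part is nonnegative
  have hpos : 0 ≤ ∑' τ : ℤ, (μ τ * (b τ - a τ) + Φ τ * (b (τ - N) - b τ)) := by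
    have t1 : Summable fun τ => μ τ * b τ := (fμ.mul_right _).summable
    have t2 : Summable fun τ => μ τ * a τ := (fμ.mul_right _).summable
    have t3 : Summable fun τ => Φ τ * b (τ - N) := (fΦ.mul_right _).summable
    have t4 : Summable fun τ => Φ τ * b τ := (fΦ.mul_right _).summable
    have t5 : ∑' τ : ℤ, (μ τ * (b τ - a τ) + Φ τ * (b (τ - N) - b τ)) =
        ∑' τ, μ τ * b τ - ∑' τ, μ τ * a τ + (∑' τ, Φ τ * b (τ - N) - ∑' τ, Φ τ * b τ) := by
      rw [← t1.tsum_sub t2, ← t3.tsum_sub t4, ← (t1.sub t2).tsum_add (t3.sub t4)]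
      exact tsum_congr fun τ => by ring
    have t6 : ∑' τ : ℤ, Φ τ * b (τ - N) = ∑' τ : ℤ, Φ (τ + N) * b τ := by
      rw [← tsum_shift (fun τ => Φ τ * b (τ - N)) N]
      exact tsum_congr fun τ => by simp only [add_sub_cancel_right]
    have t7 : Summable fun τ : ℤ => Φ (τ + N) * b τ := ((fΦ.shift N).mul_right _).summable
    have t8 : ∑' τ, μ τ * b τ - ∑' τ, Φ τ * b τ + ∑' τ : ℤ, Φ (τ + N) * b τ =
        ∑' τ : ℤ, μ (τ + 1) * b τ := by
      rw [← t1.tsum_sub t4, ← (t1.sub t4).tsum_add t7]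
      refine tsum_congr fun τ => ?_
      rw [hμ, wm_succ]
      ring
    have t9 : ∑' τ : ℤ, μ (τ + 1) * a (τ + 1) ≤ ∑' τ : ℤ, μ (τ + 1) * b τ :=
      Summable.tsum_le_tsum (fun τ => mul_le_mul_of_nonneg_left (hab τ) (hμ0 _))
        ((fμ.shift 1).mul_right _).summable ((fμ.shift 1).mul_right _).summable
    have t10 := tsum_shift (fun τ => μ τ * a τ) 1
    rw [t5, t6]
    linarith
  -- the remaining sums
  have hone : ∑' τ, Φ τ = 1 := hΦ.total hN
  have hmass : ∑' τ : ℤ, μ τ * ρ / N = ρ := by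
    have e1 : ∑' τ : ℤ, μ τ * ρ / N = (∑' τ, μ τ) * (ρ / N) := by
      rw [← tsum_mul_right]
      exact tsum_congr fun τ => by ring
    rw [e1, hμ, tsum_wm_one hN hΦ]
    field_simp
  have hlogy : ∑' τ, Φ τ * Real.log (Y τ) =
      (∑ w ∈ Finset.range N, Real.log (y ((w : ℝ) / N))) / N := by
    rw [tsum_split hN (fΦ.mul_right _), Finset.sum_div]
    refine Finset.sum_congr rfl fun w hw => ?_
    have hw' := Finset.mem_range.1 hw
    have e1 : ∀ j : ℤ, Φ (w + j * N) * Real.log (Y (w + j * N)) =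
        Φ (w + j * N) * Real.log (y ((w : ℝ) / N)) := by
      intro j
      have e2 : ((w : ℤ) + j * N) % N = w := by
        rw [Int.add_mul_emod_self_right]
        exact Int.emod_eq_of_lt (by positivity) (by exact_mod_cast hw')
      simp only [hY]
      rw [e2]
      push_cast
      rfl
    rw [tsum_congr e1, tsum_mul_right, hΦ.tile w hw']
    ring
  have hsplit : ∑' τ : ℤ, (Φ τ + Φ τ * Real.log (Y τ) - Φ τ * Real.log (N * Φ τ / μ τ)) =
      1 + (∑ w ∈ Finset.range N, Real.log (y ((w : ℝ) / N))) / N -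
        ∑' τ, Φ τ * Real.log (N * Φ τ / μ τ) := by
    rw [← hlogy, ← hone, ← fΦ.summable.tsum_add (fΦ.mul_right _).summable,
      ← (fΦ.summable.add (fΦ.mul_right _).summable).tsum_sub (fΦ.mul_right _).summable]
  have hrie := vl_riemann (F := fun s => Real.log (y s)) (B := Real.log R) h.m_pos hN
    (fun s s' hss => by
      show Real.log (y s) = Real.log (y s')
      rw [h.y_const s s' hss])
    (fun s => by
      show |Real.log (y s)| ≤ Real.log R
      rw [abs_le]
      constructor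
      · have h1 := Real.log_le_log (by positivity) (h.y_ge s)
        rw [one_div, Real.log_inv] at h1
        exact h1
      · exact Real.log_le_log (hy0 s) (h.y_le s))
  rw [abs_le] at hrie
  have hval := h.value
  rw [hsplit, hmass] at hsum
  linarith [hrie.1]

end Pool.Agent.Lib.MP_8501c9_pr.Var
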