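import Pool.Agent.Lib.MP_8501c9_pr.Var.Cont2
import Pool.Agent.Lib.MP_8501c9_pr.Var.Weak

/-!
# Weak duality: a certificate bounds the functional
-/

set_option autoImplicit false
open Set MeasureTheory

namespace Pool.Agent.Lib.MP_8501c9_pr.Var

open Pool.Agent.Lib.MP_8501c9_pr.Wide

theorem log_one_add_le {x : ℝ} (hx : 0 ≤ x) : Real.log (1 + x) ≤ 2 * Real.sqrt x := by
  have h0 := Real.sqrt_nonneg x
  have h1 : 1 + x ≤ (1 + Real.sqrt x) ^ 2 := by
    have := Real.sq_sqrt hx
    nlinarith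
  have h2 := Real.log_le_log (by linarith) h1
  rw [Real.log_pow] at h2
  have h3 := Real.log_le_sub_one_of_pos (by linarith : 0 < 1 + Real.sqrt x)
  push_cast at h2
  linarith

theorem err_sum {N K : ℕ} (hN : 1 ≤ N) {Φ : ℤ → ℝ} (h : DAdm N Φ)
    (hK : ∀ τ : ℤ, (K * N + 1 : ℤ) ≤ |τ| → Φ τ = 0) :
    ∑' τ : ℤ, Φ τ / Real.sqrt (wm N Φ τ) ≤ 2 * (2 * K + 3) := by
  have hN0 : (0 : ℝ) < N := by exact_mod_cast hN
  have hNz : (1 : ℤ) ≤ N := by exact_mod_cast hN
  have hfs : FS fun τ => Φ τ / Real.sqrt (wm N Φ τ) :=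
    h.fs.of_imp fun τ hτ => by rw [hτ, zero_div]
  rw [tsum_blocks hN hfs, tsum_eq_sum (s := Finset.Ioo (-(K + 2 : ℤ)) (K + 2))]
  · have h1 : ∀ k ∈ Finset.Ioo (-(K + 2 : ℤ)) (K + 2),
        ∑ i ∈ Finset.range N, Φ (k * N + i) / Real.sqrt (wm N Φ (k * N + i)) ≤ 2 := by
      intro k _
      refine (block_tel h.nonneg k).trans ?_
      have h2 : ∑ i ∈ Finset.range N, Φ (k * N + i) ≤ 1 := by
        refine (Finset.sum_le_sum fun i _ => h.le hN _).trans (le_of_eq ?_)
        rw [Finset.sum_const, Finset.card_range, nsmul_eq_mul]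
        field_simp
      have h3 := Real.sqrt_le_one.2 h2
      linarith
    refine (Finset.sum_le_sum h1).trans ?_
    rw [Finset.sum_const, Int.card_Ioo, nsmul_eq_mul]
    have h4 : ((K + 2 - -(K + 2) - 1 : ℤ).toNat : ℝ) = 2 * K + 3 := by
      have : (K + 2 - -(K + 2) - 1 : ℤ) = ((2 * K + 3 : ℕ) : ℤ) := by push_cast; ring
      rw [this, Int.toNat_natCast]
      push_cast
      ring
    rw [h4]
    linarith
  · intro k hk
    refine Finset.sum_eq_zero fun i hi => ?_
    have hi' : (i : ℤ) < N := by exact_mod_cast Finset.mem_range.1 hi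
    have hi0 : (0 : ℤ) ≤ i := by positivity
    rw [hK, zero_div]
    rw [Finset.mem_Ioo, not_and_or] at hk
    rw [le_abs]
    rcases hk with hk | hk
    · right
      nlinarith
    · left
      nlinarith

theorem pen_le {N L : ℕ} (hN : 1 ≤ N) {τ : ℤ} (h : |τ| ≤ L * N) : pen N τ ≤ L * (L + 1) := by
  have hNz : (0 : ℤ) < N := by exact_mod_cast hN
  rw [abs_le] at h
  have h1 : τ / (N : ℤ) ≤ L := by
    have := Int.ediv_le_ediv hNz h.2
    rwa [Int.mul_ediv_cancel _ hNz.ne'] at this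
  have h2 : -(L : ℤ) ≤ τ / (N : ℤ) := by
    have := Int.ediv_le_ediv hNz h.1
    rwa [← neg_mul, Int.mul_ediv_cancel _ hNz.ne'] at this
  unfold pen
  have : τ / (N : ℤ) * (τ / (N : ℤ) + 1) ≤ L * (L + 1) := by nlinarith
  exact_mod_cast this

theorem cont_disc {κ : ℝ} (hκ : 0 ≤ κ) {p : ℝ → ℝ} (h : Adm p) : ∃ C : ℝ, 0 ≤ C ∧ ∀ N : ℕ, 1 ≤ N →
    J κ p ≤ 1 - ∑' τ : ℤ, win N p τ * Real.log (N * win N p τ / wm N (win N p) τ) -
      κ / N * ∑' τ : ℤ, pen N τ * wm N (win N p) τ + (C / Real.sqrt N + κ * C / N) := by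
  obtain ⟨K, hK1, hK⟩ := h.nat
  refine ⟨max (4 * (2 * K + 3)) ((2 * (K + 1) + 1) * ((K + 1) * (K + 2))), by positivity,
    fun N hN => ?_⟩
  set C : ℝ := max (4 * (2 * K + 3)) ((2 * (K + 1) + 1) * ((K + 1) * (K + 2))) with hC
  have hN0 : (0 : ℝ) < N := by exact_mod_cast hN
  have hNz : (1 : ℤ) ≤ N := by exact_mod_cast hN
  have hs0 : 0 < Real.sqrt N := Real.sqrt_pos.2 hN0
  have hd := h.dadm hN
  set Φ := win N p with hΦ
  set μ := wm N Φ with hμ
  have hz : ∀ τ : ℤ, (K * N + 1 : ℤ) ≤ |τ| → Φ τ = 0 := fun τ hτ => win_zero hN hK hτ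
  have hμ0 : ∀ τ, 0 ≤ μ τ := wm_nonneg hd.nonneg
  have hΦμ : ∀ τ, Φ τ ≤ μ τ := le_wm hN hd.nonneg
  -- the entropy
  have hW := win_hasSum hN h.int
  have hA : ∑' τ : ℤ, Φ τ * Real.log (N * Φ τ / μ τ) ≤
      (∫ x, p x * Real.log (p x / mass p x)) + C / Real.sqrt N := by
    have h1 : ∀ τ, Φ τ * Real.log (N * Φ τ / μ τ) ≤
        win N (fun x => p x * Real.log (p x / mass p x)) τ +
          2 / Real.sqrt N * (Φ τ / Real.sqrt (μ τ)) := by
      intro τ
      have h2 := win_entropy h hN τ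
      rw [← hΦ] at h2
      refine le_trans ?_ (add_le_add_left h2 _)
      rcases (hd.nonneg τ).eq_or_lt with h0 | h0
      · rw [← h0]
        simp
      · have hμp : 0 < μ τ := lt_of_lt_of_le h0 (hΦμ τ)
        have hc : 0 < μ τ + 1 / N := by positivity
        have h3 : Real.log (N * Φ τ / μ τ) =
            Real.log (N * Φ τ / (μ τ + 1 / N)) + Real.log (1 + 1 / (N * μ τ)) := by
          rw [← Real.log_mul (by positivity) (by positivity)]
          congr 1
          field_simp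
        have h4 := log_one_add_le (x := 1 / (N * μ τ)) (by positivity)
        have h5 : Real.sqrt (1 / (N * μ τ)) = 1 / (Real.sqrt N * Real.sqrt (μ τ)) := by
          rw [Real.sqrt_div zero_le_one, Real.sqrt_one, Real.sqrt_mul hN0.le]
        rw [h5] at h4
        rw [h3, mul_add]
        have h6 := mul_le_mul_of_nonneg_left h4 h0.le
        have h7 : Φ τ * (2 * (1 / (Real.sqrt N * Real.sqrt (μ τ)))) =
            2 / Real.sqrt N * (Φ τ / Real.sqrt (μ τ)) := by
          have := Real.sqrt_pos.2 hμp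
          field_simp
        rw [h7] at h6
        have h8 : wm N Φ τ = μ τ := rfl
        rw [h8]
        linarith
    have hfs : FS fun τ => Φ τ / Real.sqrt (μ τ) :=
      hd.fs.of_imp fun τ hτ => by rw [hτ, zero_div]
    have h2 := Summable.tsum_le_tsum h1 (hd.fs.mul_right _).summable
      (hW.summable.add (hfs.summable.mul_left _))
    rw [hW.summable.tsum_add (hfs.summable.mul_left _), hW.tsum_eq, tsum_mul_left] at h2
    have h3 := err_sum hN hd hz
    have h4 : 2 / Real.sqrt N * ∑' τ : ℤ, Φ τ / Real.sqrt (μ τ) ≤ C / Real.sqrt N := by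
      calc 2 / Real.sqrt N * ∑' τ : ℤ, Φ τ / Real.sqrt (μ τ)
          ≤ 2 / Real.sqrt N * (2 * (2 * K + 3)) := by
            apply mul_le_mul_of_nonneg_left h3 (by positivity)
        _ = (4 * (2 * K + 3)) / Real.sqrt N := by ring
        _ ≤ C / Real.sqrt N := by
            apply div_le_div_of_nonneg_right (le_max_left _ _) hs0.le
    linarith
  -- the energy
  have hE := win_hasSum hN h.energy_int
  have hE0 : ∀ τ, 0 ≤ win N (fun x => (⌊x⌋ * (⌊x⌋ + 1) : ℝ) * mass p x) τ := fun τ =>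
    intervalIntegral.integral_nonneg (by gcongr; linarith)
      fun x _ => mul_nonneg (cfun_nonneg x) (h.mass_nonneg x)
  have hB : 1 / N * ∑' τ : ℤ, pen N τ * μ τ ≤
      (∫ x, (⌊x⌋ * (⌊x⌋ + 1) : ℝ) * mass p x) + C / N := by
    set S : Finset ℤ := Finset.Icc (-((K + 1) * N : ℤ)) ((K + 1) * N) with hS
    set e : ℤ → ℝ := fun τ => if τ ∈ S then pen N τ / (N * N) else 0 with he
    have hes : Summable e := summable_of_ne_finset_zero (s := S) fun τ hτ => if_neg hτ
    have h1 : ∀ τ, 1 / N * (pen N τ * μ τ) ≤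
        win N (fun x => (⌊x⌋ * (⌊x⌋ + 1) : ℝ) * mass p x) τ + e τ := by
      intro τ
      by_cases hτ : τ ∈ S
      · have h2 := win_energy h.toPre hN τ
        simp only [he]
        rw [if_pos hτ]
        rw [← hΦ, ← hμ] at h2
        have h3 : pen N τ * (μ τ - 1 / N) / N + pen N τ / (N * N) =
            1 / N * (pen N τ * μ τ) := by
          field_simp
          ring
        linarith
      · have h2 : μ τ = 0 := by
          rw [hμ]
          unfold wm
          refine Finset.sum_eq_zero fun i hi => hz _ ?_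
          have hi' : (i : ℤ) < N := by exact_mod_cast Finset.mem_range.1 hi
          have hi0 : (0 : ℤ) ≤ i := by positivity
          rw [hS, Finset.mem_Icc, not_and_or] at hτ
          rw [le_abs]
          rcases hτ with hτ | hτ
          · right
            have : (K * N + 1 : ℤ) + N ≤ -τ := by nlinarith
            linarith
          · left
            nlinarith
        rw [h2]
        simp only [he]
        rw [if_neg hτ, mul_zero, mul_zero, add_zero]
        exact hE0 τ
    have hfs : FS fun τ => pen N τ * μ τ := (hd.fs.wm).mul_left _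
    have h2 := Summable.tsum_le_tsum h1 (hfs.summable.mul_left _) (hE.summable.add hes)
    rw [hE.summable.tsum_add hes, hE.tsum_eq, tsum_mul_left] at h2
    have h3 : ∑' τ, e τ ≤ C / N := by
      rw [tsum_eq_sum (s := S) fun τ hτ => if_neg hτ]
      have h4 : ∀ τ ∈ S, e τ ≤ ((K + 1) * (K + 2)) / (N * N) := by
        intro τ hτ
        simp only [he]
        rw [if_pos hτ]
        apply div_le_div_of_nonneg_right _ (by positivity)
        rw [hS, Finset.mem_Icc] at hτ
        have h5 := pen_le (L := K + 1) hN (τ := τ) (by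
          rw [abs_le]
          push_cast
          exact hτ)
        push_cast at h5
        linarith
      refine (Finset.sum_le_sum h4).trans ?_
      rw [Finset.sum_const, hS, Int.card_Icc, nsmul_eq_mul]
      have h5 : (((K + 1) * N + 1 - -((K + 1) * N) : ℤ).toNat : ℝ) = 2 * ((K + 1) * N) + 1 := by
        have : ((K + 1) * N + 1 - -((K + 1) * N) : ℤ) = ((2 * ((K + 1) * N) + 1 : ℕ) : ℤ) := by
          push_cast; ring
        rw [this, Int.toNat_natCast]
        push_cast
        ring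
      rw [h5]
      have h6 : (2 * ((K + 1) * N) + 1 : ℝ) ≤ (2 * (K + 1) + 1) * N := by
        have : (1 : ℝ) ≤ N := by exact_mod_cast hN
        nlinarith
      calc (2 * ((K + 1) * N) + 1 : ℝ) * (((K + 1) * (K + 2)) / (N * N))
          ≤ (2 * (K + 1) + 1) * N * (((K + 1) * (K + 2)) / (N * N)) := by
            apply mul_le_mul_of_nonneg_right h6 (by positivity)
        _ = ((2 * (K + 1) + 1) * ((K + 1) * (K + 2))) / N := by field_simp
        _ ≤ C / N := div_le_div_of_nonneg_right (le_max_right _ _) hN0.le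
    linarith
  have hB' := mul_le_mul_of_nonneg_left hB hκ
  unfold J
  have h9 : κ * (1 / N * ∑' τ : ℤ, pen N τ * μ τ) = κ / N * ∑' τ : ℤ, pen N τ * μ τ := by ring
  have h10 : κ * (C / N) = κ * C / N := by ring
  rw [h9, mul_add, h10] at hB'
  linarith

/-- a certificate bounds the functional -/
theorem J_le_cert {κ V R P h₀ : ℝ} {k : ℕ} {f : ℝ → ℤ → ℝ} {y : ℝ → ℝ} {ρ : ℝ} (hκ : 0 ≤ κ)
    (hc : UCert κ V R P h₀ k f y ρ) {p : ℝ → ℝ} (h : Adm p) : J κ p ≤ V := by
  obtain ⟨C, hC, hJ⟩ := cont_disc hκ h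
  have hlim : Filter.Tendsto (fun N : ℕ => V + k * Real.log R / N +
      (C / Real.sqrt N + κ * C / N)) Filter.atTop (nhds (V + 0 + (0 + 0))) := by
    have h1 : Filter.Tendsto (fun N : ℕ => (N : ℝ)) Filter.atTop Filter.atTop :=
      tendsto_natCast_atTop_atTop
    have h2 : Filter.Tendsto (fun N : ℕ => Real.sqrt N) Filter.atTop Filter.atTop :=
      Real.tendsto_sqrt_atTop.comp h1
    exact (tendsto_const_nhds.add (h1.const_div_atTop _)).add
      ((h2.const_div_atTop _).add (h1.const_div_atTop _))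
  simp only [add_zero] at hlim
  refine ge_of_tendsto hlim ?_
  obtain ⟨M, hM⟩ := exists_nat_ge (1 / h₀)
  filter_upwards [Filter.eventually_ge_atTop (M + 1)] with N hN
  have hN1 : 1 ≤ N := by omega
  have hN0 : (0 : ℝ) < N := by exact_mod_cast hN1
  have hh := hc.h_pos
  have h4 : 1 / (N : ℝ) ≤ h₀ := by
    rw [div_le_iff₀ hN0]
    rw [div_le_iff₀ hh] at hM
    have h2 : (M : ℝ) ≤ N := by exact_mod_cast (by omega : M ≤ N)
    nlinarith
  have h5 := hJ N hN1
  have h6 := weak_disc hc hN1 h4 (h.dadm hN1)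
  linarith

theorem J_le_Vst {κ : ℝ} (hκ : 0 ≤ κ) {p : ℝ → ℝ} (h : Adm p) : J κ p ≤ Vst κ := by
  apply le_of_forall_pos_le_add
  intro ε hε
  obtain ⟨R, P, h₀, k, f, y, ρ, hc⟩ := uach_Vst hκ ε hε
  exact J_le_cert hκ hc h

end Pool.Agent.Lib.MP_8501c9_pr.Var
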