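import Pool.Agent.Lib.MP_8501c9_pr.Wide.DefsV
import Mathlib.MeasureTheory.Integral.IntervalIntegral.Basic

/-!
# Definitions: the variational formula for the value of the one-direction problem
-/

set_option autoImplicit false
open Set MeasureTheory

namespace Pool.Agent.Lib.MP_8501c9_pr.Var

/-- mass of the interval of length one to the right of `x` -/
noncomputable def mass (p : ℝ → ℝ) (x : ℝ) : ℝ := ∫ y in x..x + 1, p y

/-- measurable densities of compact support whose integer translates sum to one -/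
structure Pre (p : ℝ → ℝ) : Prop where
  meas : Measurable p
  nonneg : ∀ x, 0 ≤ p x
  supp : ∃ K : ℝ, ∀ x, K ≤ |x| → p x = 0
  tile : ∀ x, ∑' k : ℤ, p (x + k) = 1

/-- admissible densities -/
structure Adm (p : ℝ → ℝ) : Prop extends Pre p where
  int : Integrable (fun x => p x * Real.log (p x / mass p x))

/-- the functional to be maximised -/
noncomputable def J (κ : ℝ) (p : ℝ → ℝ) : ℝ :=
  1 - (∫ x, p x * Real.log (p x / mass p x)) - κ * ∫ x, (⌊x⌋ * (⌊x⌋ + 1) : ℝ) * mass p x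

/-- the supremum of the functional -/
noncomputable def Vvar (κ : ℝ) : ℝ := ⨆ p : {p : ℝ → ℝ // Adm p}, J κ p

/-- functions on the integers of finite support -/
def FS (g : ℤ → ℝ) : Prop := ∃ L : ℕ, ∀ τ : ℤ, (L : ℤ) ≤ |τ| → g τ = 0

/-- mass of `N` consecutive windows -/
noncomputable def wm (N : ℕ) (Φ : ℤ → ℝ) (τ : ℤ) : ℝ := ∑ i ∈ Finset.range N, Φ (τ + i)

/-- penalty at the window `τ` -/
noncomputable def pen (N : ℕ) (τ : ℤ) : ℝ := ((τ / (N : ℤ) : ℤ) : ℝ) * (((τ / (N : ℤ) : ℤ) : ℝ) + 1)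

/-- discrete densities with `N` windows per unit -/
structure DAdm (N : ℕ) (Φ : ℤ → ℝ) : Prop where
  nonneg : ∀ τ, 0 ≤ Φ τ
  fs : FS Φ
  tile : ∀ w : ℕ, w < N → ∑' j : ℤ, Φ (w + j * N) = 1 / N

end Pool.Agent.Lib.MP_8501c9_pr.Var
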