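import Pool.Agent.Lib.MP_8501c9_pr.Deep.PcAll

/-!
# Outside `log n ~ d ^ (3 / 2)` the value function may be replaced by a constant
-/

set_option autoImplicit false
open Set

namespace Pool.Agent.Lib.MP_8501c9_pr.Var

open Pool.Agent.Lib.MP_8501c9_pr Pool.Agent.Lib.MP_8501c9_pr.Mid
open Pool.Agent.Lib.MP_8501c9_pr.Wide Pool.Agent.Lib.MP_8501c9_pr.Deep

/-- the correction for new sides, as a function of the ratio of side length and dimension -/
noncomputable def hh (t : ℝ) : ℝ := Real.log (t * gg t / (2 * Real.exp 1))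

/-- the exponent with the functions `W` and `H` -/
noncomputable def LW (W H : ℝ → ℝ) (n d : ℕ) : ℝ :=
  d * ell (Real.log n / d) + 2 * Real.log d - cexp (Real.log n / d) +
    (∫ u in (0 : ℝ)..aopt (Real.log n / d), (2 * W (d / (4 * u ^ 2)) + H (u / d))) /
      aopt (Real.log n / d)

theorem corr_split {d : ℕ} (hd : 1 ≤ d) {u : ℝ} (hu : 0 < u) :
    corr d u = 2 * c0_V d u + hh (u / d) := by
  have hd0 : (0 : ℝ) < d := by exact_mod_cast hd
  unfold corr hh
  rw [c0_V_eq hd hu]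
  congr 2
  field_simp

theorem hh_int {d : ℕ} (hd : 2 ≤ d) {a : ℝ} (ha : 0 < a) :
    IntervalIntegrable (fun u => hh (u / d)) MeasureTheory.volume 0 a := by
  have h1 := (corr_int hd le_rfl ha.le).sub ((c0_V_int d 0 a).const_mul 2)
  refine h1.congr ?_
  intro u hu
  rw [uIoc_of_le ha.le] at hu
  show corr d u - 2 * c0_V d u = hh (u / d)
  rw [corr_split (by omega) hu.1]
  ring

/-- the difference of the exponents is an average -/
theorem LW_sub {W H : ℝ → ℝ} {n d : ℕ} (hd : 2 ≤ d) (hn : 0 < Real.log n)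
    (hW : IntervalIntegrable (fun u => W (d / (4 * u ^ 2))) MeasureTheory.volume 0
      (aopt (Real.log n / d)))
    (hH : IntervalIntegrable (fun u => H (u / d)) MeasureTheory.volume 0
      (aopt (Real.log n / d))) :
    LW W H n d - Lall n d =
      2 * (∫ u in (0 : ℝ)..aopt (Real.log n / d), (W (d / (4 * u ^ 2)) - c0_V d u)) /
        aopt (Real.log n / d) +
      (∫ u in (0 : ℝ)..aopt (Real.log n / d), (H (u / d) - hh (u / d))) /
        aopt (Real.log n / d) := by
  have hd0 : (0 : ℝ) < d := by exact_mod_cast (by omega : 0 < d)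
  obtain ⟨h1, -⟩ := aopt_spec (div_pos hn hd0)
  set a := aopt (Real.log n / d) with ha
  have i1 := (hW.sub (c0_V_int d 0 a)).const_mul 2
  have i2 := hH.sub (hh_int hd h1)
  have e1 : ∫ u in (0 : ℝ)..a, (2 * W (d / (4 * u ^ 2)) + H (u / d)) =
      (∫ u in (0 : ℝ)..a, corr d u) + (2 * (∫ u in (0 : ℝ)..a, (W (d / (4 * u ^ 2)) - c0_V d u)) +
        ∫ u in (0 : ℝ)..a, (H (u / d) - hh (u / d))) := by
    rw [← intervalIntegral.integral_const_mul, ← intervalIntegral.integral_add i1 i2,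
      ← intervalIntegral.integral_add (corr_int hd le_rfl h1.le) (i1.add i2)]
    apply intervalIntegral.integral_congr_ae
    refine Filter.Eventually.of_forall fun u hu => ?_
    rw [uIoc_of_le h1.le] at hu
    show 2 * W (d / (4 * u ^ 2)) + H (u / d) =
      corr d u + (2 * (W (d / (4 * u ^ 2)) - c0_V d u) + (H (u / d) - hh (u / d)))
    rw [corr_split (by omega) hu.1]
    ring
  unfold LW Lall
  rw [← ha, e1]
  field_simp
  ring

theorem c0_V_mem (d : ℕ) (u : ℝ) : 0 ≤ c0_V d u ∧ c0_V d u ≤ 1 := e7_W_mem _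

theorem c0_V_mono (d : ℕ) : Monotone (c0_V d) := fun _ _ h =>
  e7_W_mono (div_le_div_of_nonneg_right h (Real.sqrt_nonneg _))

theorem c0_V_Vst {d : ℕ} (hd : 1 ≤ d) {u : ℝ} (hu : 0 < u) : c0_V d u = Vst (d / (4 * u ^ 2)) := by
  have hd0 : (0 : ℝ) < d := by exact_mod_cast hd
  rw [← c0_V_eq hd hu, Vlim_eq (by positivity)]

/-- facts on the minimiser -/
theorem aopt_le {c b : ℝ} (hc : 0 < c) (hb : c ≤ b) : aopt b ≤ (4 + 2 / c) * b := by
  obtain ⟨-, -, -, -, h5⟩ := aopt_spec (lt_of_lt_of_le hc hb)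
  have : 2 ≤ 2 / c * b := by
    rw [div_mul_eq_mul_div, le_div_iff₀ hc]
    linarith
  rw [add_mul]
  linarith

/-- the value function itself -/
theorem avg_V {V : ℝ → ℝ} (hV : ∀ κ, 0 < κ → V κ = Vlim κ) {d : ℕ} (hd : 1 ≤ d) {a : ℝ}
    (ha : 0 < a) : (∀ u ∈ uIoc 0 a, c0_V d u = V (d / (4 * u ^ 2))) ∧
      ∫ u in (0 : ℝ)..a, (V (d / (4 * u ^ 2)) - c0_V d u) = 0 := by
  have hd0 : (0 : ℝ) < d := by exact_mod_cast hd
  have h1 : ∀ u ∈ uIoc 0 a, c0_V d u = V (d / (4 * u ^ 2)) := by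
    intro u hu
    rw [uIoc_of_le ha.le] at hu
    have hu0 : 0 < u := hu.1
    rw [hV _ (by positivity), c0_V_eq hd hu0]
  refine ⟨h1, ?_⟩
  refine intervalIntegral.integral_zero_ae (Filter.Eventually.of_forall fun u hu => ?_)
  rw [h1 u hu, sub_self]

/-- small `log n` -/
theorem avg_zero (c ε : ℝ) (hc : 0 < c) (hε : 0 < ε) : ∃ δ : ℝ, 0 < δ ∧ ∀ n d : ℕ, 2 ≤ d →
    c * d ≤ Real.log n → Real.log n ≤ δ * (d * Real.sqrt d) →
    |∫ u in (0 : ℝ)..aopt (Real.log n / d), (0 - c0_V d u)| ≤ ε * aopt (Real.log n / d) := by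
  obtain ⟨κ₀, hκ₀, hV⟩ := Vst_large ε hε
  set K : ℝ := 4 + 2 / c with hK
  have hK0 : 0 < K := by positivity
  refine ⟨1 / (2 * K * Real.sqrt κ₀), by positivity, fun n d hd hcn hnd => ?_⟩
  have hd0 : (0 : ℝ) < d := by exact_mod_cast (by omega : 0 < d)
  have hs0 : 0 < Real.sqrt d := Real.sqrt_pos.2 hd0
  have hn : 0 < Real.log n := lt_of_lt_of_le (by positivity) hcn
  obtain ⟨h1, -⟩ := aopt_spec (div_pos hn hd0)
  set b := Real.log n / d with hb
  have hcb : c ≤ b := by rw [hb, le_div_iff₀ hd0]; exact hcn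
  have hab := aopt_le hc hcb
  set a := aopt b with ha
  rw [← hK] at hab
  have hbd : b ≤ 1 / (2 * K * Real.sqrt κ₀) * Real.sqrt d := by
    rw [hb, div_le_iff₀ hd0]
    calc Real.log n ≤ 1 / (2 * K * Real.sqrt κ₀) * (d * Real.sqrt d) := hnd
      _ = _ := by ring
  have hκ : κ₀ ≤ d / (4 * a ^ 2) := by
    have hsκ : 0 < Real.sqrt κ₀ := Real.sqrt_pos.2 hκ₀
    have h6 : 2 * a * Real.sqrt κ₀ ≤ Real.sqrt d := by
      calc 2 * a * Real.sqrt κ₀ ≤ 2 * (K * (1 / (2 * K * Real.sqrt κ₀) * Real.sqrt d)) *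
            Real.sqrt κ₀ := by
            have := hab.trans (mul_le_mul_of_nonneg_left hbd hK0.le)
            gcongr
        _ = Real.sqrt d := by field_simp
    have h7 : (2 * a * Real.sqrt κ₀) ^ 2 ≤ (Real.sqrt d) ^ 2 :=
      pow_le_pow_left₀ (by positivity) h6 2
    rw [Real.sq_sqrt hd0.le, mul_pow, mul_pow, Real.sq_sqrt hκ₀.le] at h7
    rw [le_div_iff₀ (by positivity)]
    linarith
  have hmax : c0_V d a ≤ ε := by
    rw [c0_V_Vst (by omega) h1]
    exact hV _ hκ
  have := intervalIntegral.norm_integral_le_of_norm_le_const (a := (0 : ℝ)) (b := a)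
    (f := fun u => 0 - c0_V d u) (C := ε) (fun u hu => by
      rw [uIoc_of_le h1.le] at hu
      have h9 := c0_V_mem d u
      have h10 := c0_V_mono d hu.2
      rw [Real.norm_eq_abs, zero_sub, abs_neg, abs_of_nonneg h9.1]
      linarith)
  rwa [Real.norm_eq_abs, sub_zero, abs_of_pos h1] at this

/-- large `log n` -/
theorem avg_one (ε : ℝ) (hε : 0 < ε) : ∃ δ : ℝ, 0 < δ ∧ ∀ n d : ℕ, 2 ≤ d → 0 < Real.log n →
    d * Real.sqrt d ≤ δ * Real.log n →
    |∫ u in (0 : ℝ)..aopt (Real.log n / d), (1 - c0_V d u)| ≤ ε * aopt (Real.log n / d) := by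
  obtain ⟨κ₁, hκ₁, hV⟩ := Vst_small (ε / 2) (by linarith)
  have hsκ : 0 < Real.sqrt κ₁ := Real.sqrt_pos.2 hκ₁
  -- `u₀ = t √d`
  set t : ℝ := 1 / (2 * Real.sqrt κ₁) with ht
  have ht0 : 0 < t := by positivity
  refine ⟨1 / (t / ε + t), by positivity, fun n d hd hn hnd => ?_⟩
  have hd0 : (0 : ℝ) < d := by exact_mod_cast (by omega : 0 < d)
  have hs0 : 0 < Real.sqrt d := Real.sqrt_pos.2 hd0
  obtain ⟨h1, -, -, h4, -⟩ := aopt_spec (div_pos hn hd0)
  set b := Real.log n / d with hb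
  set a := aopt b with ha
  have hT : 0 < t / ε + t := by positivity
  have hbd : (t / ε + t) * Real.sqrt d ≤ b := by
    rw [hb, le_div_iff₀ hd0]
    calc (t / ε + t) * Real.sqrt d * d = (t / ε + t) * (d * Real.sqrt d) := by ring
      _ ≤ (t / ε + t) * (1 / (t / ε + t) * Real.log n) := mul_le_mul_of_nonneg_left hnd hT.le
      _ = Real.log n := by field_simp
  set u₀ : ℝ := t * Real.sqrt d with hu₀
  have hu0 : 0 < u₀ := by positivity
  have hexp : (t / ε + t) * Real.sqrt d = 1 / ε * u₀ + u₀ := by rw [hu₀]; ring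
  have h2e : 0 < 1 / ε * u₀ := by positivity
  have hua : u₀ ≤ a := by linarith
  have hua2 : u₀ ≤ ε / 2 * a := by
    have h6 : 2 / ε * u₀ ≤ a := by
      have : 2 / ε * u₀ = 2 * (1 / ε * u₀) := by ring
      linarith
    calc u₀ = ε / 2 * (2 / ε * u₀) := by field_simp
      _ ≤ ε / 2 * a := mul_le_mul_of_nonneg_left h6 (by linarith)
  have hint : ∀ x y : ℝ, IntervalIntegrable (fun u => 1 - c0_V d u) MeasureTheory.volume x y :=
    fun x y => intervalIntegrable_const.sub (c0_V_int d x y)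
  have h7 : |∫ u in (0 : ℝ)..u₀, (1 - c0_V d u)| ≤ 1 * |u₀ - 0| := by
    have := intervalIntegral.norm_integral_le_of_norm_le_const (a := (0 : ℝ)) (b := u₀)
      (f := fun u => 1 - c0_V d u) (C := 1) (fun u _ => by
        have h9 := c0_V_mem d u
        rw [Real.norm_eq_abs, abs_le]
        constructor <;> linarith)
    rwa [Real.norm_eq_abs] at this
  have h8 : |∫ u in u₀..a, (1 - c0_V d u)| ≤ ε / 2 * |a - u₀| := by
    have := intervalIntegral.norm_integral_le_of_norm_le_const (a := u₀) (b := a)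
      (f := fun u => 1 - c0_V d u) (C := ε / 2) (fun u hu => by
        rw [uIoc_of_le hua] at hu
        have hupos : 0 < u := hu0.trans hu.1
        have h9 := c0_V_mem d u
        have h10 : 1 - ε / 2 ≤ c0_V d u := by
          rw [c0_V_Vst (by omega) hupos]
          apply hV _ (by positivity)
          rw [div_le_iff₀ (by positivity)]
          have h11 : u₀ ^ 2 ≤ u ^ 2 := pow_le_pow_left₀ hu0.le hu.1.le 2
          have h12 : κ₁ * (4 * u₀ ^ 2) = d := by
            rw [hu₀, ht, mul_pow, div_pow, mul_pow, Real.sq_sqrt hκ₁.le, Real.sq_sqrt hd0.le]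
            field_simp
            ring
          calc (d : ℝ) = κ₁ * (4 * u₀ ^ 2) := h12.symm
            _ ≤ κ₁ * (4 * u ^ 2) := by gcongr
        rw [Real.norm_eq_abs, abs_le]
        constructor <;> linarith)
    rwa [Real.norm_eq_abs] at this
  rw [sub_zero, abs_of_pos hu0, one_mul] at h7
  have h8' : |a - u₀| = a - u₀ := abs_of_nonneg (by linarith)
  rw [h8'] at h8
  rw [← intervalIntegral.integral_add_adjacent_intervals (hint 0 u₀) (hint u₀ a)]
  refine (abs_add_le _ _).trans ?_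
  have : ε / 2 * (a - u₀) ≤ ε / 2 * a := by
    apply mul_le_mul_of_nonneg_left _ (by linarith)
    linarith
  linarith

/-- `log n` at most a small multiple of `d ^ 2` -/
theorem avg_h (c ε : ℝ) (hc : 0 < c) (hε : 0 < ε) : ∃ δ : ℝ, 0 < δ ∧ ∀ n d : ℕ, 2 ≤ d →
    c * d ≤ Real.log n → Real.log n ≤ δ * d ^ 2 →
    |∫ u in (0 : ℝ)..aopt (Real.log n / d), (0 - hh (u / d))| ≤ ε * aopt (Real.log n / d) := by
  obtain ⟨τ₀, hτ₀, hg⟩ := gg_small ε hε
  set K : ℝ := 4 + 2 / c with hK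
  have hK0 : 0 < K := by positivity
  refine ⟨τ₀ / K, by positivity, fun n d hd hcn hnd => ?_⟩
  have hd0 : (0 : ℝ) < d := by exact_mod_cast (by omega : 0 < d)
  have hn : 0 < Real.log n := lt_of_lt_of_le (by positivity) hcn
  obtain ⟨h1, -⟩ := aopt_spec (div_pos hn hd0)
  set b := Real.log n / d with hb
  have hcb : c ≤ b := by rw [hb, le_div_iff₀ hd0]; exact hcn
  have hab := aopt_le hc hcb
  set a := aopt b with ha
  rw [← hK] at hab
  have had : a ≤ τ₀ * d := by
    have h2 : b ≤ τ₀ / K * d := by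
      rw [hb, div_le_iff₀ hd0]
      calc Real.log n ≤ τ₀ / K * d ^ 2 := hnd
        _ = _ := by ring
    calc a ≤ K * b := hab
      _ ≤ K * (τ₀ / K * d) := mul_le_mul_of_nonneg_left h2 hK0.le
      _ = τ₀ * d := by field_simp
  have := intervalIntegral.norm_integral_le_of_norm_le_const (a := (0 : ℝ)) (b := a)
    (f := fun u => 0 - hh (u / d)) (C := ε) (fun u hu => by
      rw [uIoc_of_le h1.le] at hu
      have hu0 : 0 < u := hu.1
      have hτ : 0 < u / d := by positivity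
      have hτ1 : u / d ≤ τ₀ := by
        rw [div_le_iff₀ hd0]
        exact hu.2.trans had
      have h2 := hg _ hτ hτ1
      have h3 := (gg_ge hτ).1
      have he := Real.exp_pos 1
      have h4 : 1 ≤ u / d * gg (u / d) / (2 * Real.exp 1) := by
        rw [le_div_iff₀ (by positivity), one_mul]
        calc 2 * Real.exp 1 = u / d * (2 * Real.exp 1 / (u / d)) := by field_simp
          _ ≤ _ := mul_le_mul_of_nonneg_left h3 hτ.le
      have h5 : u / d * gg (u / d) / (2 * Real.exp 1) ≤ Real.exp ε := by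
        rw [div_le_iff₀ (by positivity)]
        calc u / d * gg (u / d) ≤ u / d * (Real.exp ε * (2 * Real.exp 1 / (u / d))) :=
              mul_le_mul_of_nonneg_left h2 hτ.le
          _ = _ := by field_simp
      have h6 : 0 ≤ hh (u / d) := Real.log_nonneg h4
      have h7 : hh (u / d) ≤ ε := by
        have := Real.log_le_log (by linarith) h5
        rwa [Real.log_exp] at this
      rw [Real.norm_eq_abs, zero_sub, abs_neg, abs_of_nonneg h6]
      exact h7)
  rwa [Real.norm_eq_abs, sub_zero, abs_of_pos h1] at this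

/-- change of the exponent -/
theorem pc_change {P A B ε : ℝ} (hε : 0 < ε) (h1 : |P / Real.exp (-A) - 1| ≤ ε / 2 / (1 + ε / 2))
    (h2 : |B - A| ≤ Real.log (1 + ε / 2)) : |P / Real.exp (-B) - 1| ≤ ε := by
  have e0 : 0 < 1 + ε / 2 := by linarith
  have e1 : P / Real.exp (-B) = P / Real.exp (-A) * Real.exp (B - A) := by
    rw [Real.exp_sub, Real.exp_neg, Real.exp_neg]
    have := Real.exp_pos A
    have := Real.exp_pos B
    field_simp
  set X := P / Real.exp (-A) with hX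
  set T := Real.exp (B - A) with hT
  rw [abs_le] at h2
  have hT1 : T ≤ 1 + ε / 2 := by
    rw [hT, ← Real.exp_log e0]
    exact Real.exp_le_exp.2 h2.2
  have hT2 : 1 / (1 + ε / 2) ≤ T := by
    have e5 : 1 / (1 + ε / 2) = Real.exp (-Real.log (1 + ε / 2)) := by
      rw [Real.exp_neg, Real.exp_log e0, one_div]
    rw [e5, hT]
    exact Real.exp_le_exp.2 h2.1
  have hT0 : 0 < T := Real.exp_pos _
  have hT3 : 1 - ε / 2 ≤ 1 / (1 + ε / 2) := by
    rw [le_div_iff₀ e0]
    nlinarith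
  rw [e1]
  have e2 : X * T - 1 = (X - 1) * T + (T - 1) := by ring
  rw [e2]
  refine (abs_add_le _ _).trans ?_
  have e3 : |(X - 1) * T| ≤ ε / 2 := by
    rw [abs_mul, abs_of_pos hT0]
    calc |X - 1| * T ≤ ε / 2 / (1 + ε / 2) * (1 + ε / 2) :=
          mul_le_mul h1 hT1 hT0.le (by positivity)
      _ = ε / 2 := by field_simp
  have e4 : |T - 1| ≤ ε / 2 := by
    rw [abs_le]
    constructor <;> linarith
  linarith

/-- all ranges together -/
theorem pc_ranges {V : ℝ → ℝ} (hV : ∀ κ, 0 < κ → V κ = Vlim κ) (c ε : ℝ) (hc : 0 < c)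
    (hε : 0 < ε) : ∃ (D : ℕ) (δ : ℝ), 0 < δ ∧ ∀ n d : ℕ, D ≤ d → c * d ≤ Real.log n →
    ∀ W H : ℝ → ℝ,
      (W = V ∨ (W = (fun _ => 0) ∧ Real.log n ≤ δ * (d * Real.sqrt d)) ∨
        (W = (fun _ => 1) ∧ d * Real.sqrt d ≤ δ * Real.log n)) →
      (H = hh ∨ (H = (fun _ => 0) ∧ Real.log n ≤ δ * d ^ 2)) →
      |pc n d 2 / Real.exp (-LW W H n d) - 1| ≤ ε := by
  have hlog : 0 < Real.log (1 + ε / 2) := Real.log_pos (by linarith)
  set η : ℝ := Real.log (1 + ε / 2) / 3 with hη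
  have hη0 : 0 < η := by positivity
  obtain ⟨D, hD⟩ := pc_all c (ε / 2 / (1 + ε / 2)) hc (by positivity)
  obtain ⟨δ₁, hδ₁, h0⟩ := avg_zero c η hc hη0
  obtain ⟨δ₂, hδ₂, h1⟩ := avg_one η hη0
  obtain ⟨δ₃, hδ₃, h2⟩ := avg_h c η hc hη0
  refine ⟨D + 2, min δ₁ (min δ₂ δ₃), by positivity, fun n d hd hn W H hW hH => ?_⟩
  have hd2 : 2 ≤ d := by omega
  have hd0 : (0 : ℝ) < d := by exact_mod_cast (by omega : 0 < d)
  have hln : 0 < Real.log n := lt_of_lt_of_le (by positivity) hn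
  obtain ⟨ha, -⟩ := aopt_spec (div_pos hln hd0)
  have hdd : 0 ≤ (d : ℝ) * Real.sqrt d := by positivity
  set a := aopt (Real.log n / d) with hadef
  have hWb : IntervalIntegrable (fun u => W (d / (4 * u ^ 2))) MeasureTheory.volume 0 a ∧
      |∫ u in (0 : ℝ)..a, (W (d / (4 * u ^ 2)) - c0_V d u)| ≤ η * a := by
    rcases hW with rfl | ⟨rfl, hr⟩ | ⟨rfl, hr⟩
    · obtain ⟨e1, e2⟩ := avg_V hV (by omega : 1 ≤ d) ha
      refine ⟨(c0_V_int d 0 a).congr e1, ?_⟩
      rw [e2, abs_zero]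
      positivity
    · exact ⟨intervalIntegrable_const, h0 n d hd2 hn
        (hr.trans (mul_le_mul_of_nonneg_right (min_le_left _ _) hdd))⟩
    · exact ⟨intervalIntegrable_const, h1 n d hd2 hln
        (hr.trans (mul_le_mul_of_nonneg_right ((min_le_right _ _).trans (min_le_left _ _))
          hln.le))⟩
  have hHb : IntervalIntegrable (fun u => H (u / d)) MeasureTheory.volume 0 a ∧
      |∫ u in (0 : ℝ)..a, (H (u / d) - hh (u / d))| ≤ η * a := by
    rcases hH with rfl | ⟨rfl, hr⟩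
    · refine ⟨hh_int hd2 ha, ?_⟩
      simp only [sub_self, intervalIntegral.integral_zero, abs_zero]
      positivity
    · exact ⟨intervalIntegrable_const, h2 n d hd2 hn
        (hr.trans (mul_le_mul_of_nonneg_right ((min_le_right _ _).trans (min_le_right _ _))
          (by positivity)))⟩
  refine pc_change hε (hD n d (by omega) hn) ?_
  rw [LW_sub hd2 hln hWb.1 hHb.1, ← hadef]
  refine (abs_add_le _ _).trans ?_
  have e3 : |2 * (∫ u in (0 : ℝ)..a, (W (d / (4 * u ^ 2)) - c0_V d u)) / a| ≤ 2 * η := by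
    rw [abs_div, abs_mul, abs_two, abs_of_pos ha, div_le_iff₀ ha]
    linarith [hWb.2]
  have e4 : |(∫ u in (0 : ℝ)..a, (H (u / d) - hh (u / d))) / a| ≤ η := by
    rw [abs_div, abs_of_pos ha, div_le_iff₀ ha]
    exact hHb.2
  have e5 : Real.log (1 + ε / 2) = 3 * η := by rw [hη]; ring
  linarith

end Pool.Agent.Lib.MP_8501c9_pr.Var
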