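import Pool.Agent.Lib.MP_8501c9_pr.Var.Sym
import Pool.Agent.Lib.MP_8501c9_pr.Var.Ranges

/-!
# The critical probability with the variational formula for the value function
-/

set_option autoImplicit false
open Set MeasureTheory Filter Topology

namespace Pool.Agent.Lib.MP_8501c9_pr.Var

open Pool.Agent.Lib.MP_8501c9_pr Pool.Agent.Lib.MP_8501c9_pr.Mid
open Pool.Agent.Lib.MP_8501c9_pr.Wide Pool.Agent.Lib.MP_8501c9_pr.Deep

theorem Vsym_eq_Vst {κ : ℝ} (hκ : 0 < κ) : Vsym κ = Vst κ := by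
  rw [Vsym_eq hκ, Vvar_eq hκ]

theorem Vsym_eq_Vlim {κ : ℝ} (hκ : 0 < κ) : Vsym κ = Vlim κ := by
  rw [Vsym_eq hκ, Vvar_eq_Vlim hκ]

theorem Vsym_mem {κ : ℝ} (hκ : 0 < κ) : 0 ≤ Vsym κ ∧ Vsym κ ≤ 1 := by
  rw [Vsym_eq_Vst hκ]
  exact Vst_mem hκ.le

theorem Vsym_anti : AntitoneOn Vsym (Ioi 0) := by
  intro x hx y hy hxy
  rw [Vsym_eq_Vst hx, Vsym_eq_Vst hy]
  exact Vst_anti (le_of_lt hx) hxy

theorem J_affine (κ κ' s t : ℝ) (hst : s + t = 1) (p : ℝ → ℝ) :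
    J (s * κ + t * κ') p = s * J κ p + t * J κ' p := by
  unfold J
  have hs : s = 1 - t := by linarith
  subst hs
  ring

theorem Vsym_convex : ConvexOn ℝ (Ioi 0) Vsym := by
  refine ⟨convex_Ioi 0, fun x hx y hy s t hs ht hst => ?_⟩
  have hx' : 0 < x := hx
  have hy' : 0 < y := hy
  have hz : 0 < s * x + t * y := by
    rcases hs.eq_or_lt with h | h
    · have : t = 1 := by linarith
      rw [← h, this]
      linarith
    · have : 0 ≤ t * y := mul_nonneg ht hy'.le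
      nlinarith [mul_pos h hx']
  simp only [smul_eq_mul]
  rw [Vsym_eq hx', Vsym_eq hy', Vsym_eq hz]
  have hne := Vvar_nonempty hx'
  refine ciSup_le fun p => ?_
  rw [J_affine x y s t hst]
  have h1 : J x p ≤ Vvar x := le_ciSup (Vvar_bdd hx'.le) p
  have h2 : J y p ≤ Vvar y := le_ciSup (Vvar_bdd hy'.le) p
  have h3 := mul_le_mul_of_nonneg_left h1 hs
  have h4 := mul_le_mul_of_nonneg_left h2 ht
  linarith

theorem Vsym_zero : Tendsto Vsym (𝓝[>] 0) (𝓝 1) := by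
  rw [Metric.tendsto_nhdsWithin_nhds]
  intro ε hε
  obtain ⟨κ₀, hκ₀, h⟩ := Vst_small (ε / 2) (by linarith)
  refine ⟨κ₀, hκ₀, fun κ hκ hd => ?_⟩
  have hκ' : 0 < κ := hκ
  rw [Real.dist_eq, sub_zero, abs_of_pos hκ'] at hd
  have h1 := h κ hκ'.le hd.le
  have h2 := Vsym_mem hκ'
  rw [← Vsym_eq_Vst hκ'] at h1
  rw [Real.dist_eq, abs_lt]
  constructor <;> linarith

theorem Vsym_infty : Tendsto Vsym atTop (𝓝 0) := by
  rw [Metric.tendsto_atTop]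
  intro ε hε
  obtain ⟨κ₀, hκ₀, h⟩ := Vst_large (ε / 2) (by linarith)
  refine ⟨κ₀, fun κ hκ => ?_⟩
  have hκ' : 0 < κ := lt_of_lt_of_le hκ₀ hκ
  have h1 := h κ hκ
  have h2 := Vsym_mem hκ'
  rw [← Vsym_eq_Vst hκ'] at h1
  rw [Real.dist_eq, abs_lt]
  constructor <;> linarith

theorem pc_final (c ε : ℝ) (hc : 0 < c) (hε : 0 < ε) : ∃ (D : ℕ) (δ : ℝ), 0 < δ ∧ ∀ n d : ℕ,
    D ≤ d → c * d ≤ Real.log n → ∀ W H : ℝ → ℝ,
      (W = Vsym ∨ (W = (fun _ => 0) ∧ Real.log n ≤ δ * (d * Real.sqrt d)) ∨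
        (W = (fun _ => 1) ∧ d * Real.sqrt d ≤ δ * Real.log n)) →
      (H = hh ∨ (H = (fun _ => 0) ∧ Real.log n ≤ δ * d ^ 2)) →
      |pc n d 2 / Real.exp (-LW W H n d) - 1| ≤ ε :=
  pc_ranges (fun _ hκ => Vsym_eq_Vlim hκ) c ε hc hε

end Pool.Agent.Lib.MP_8501c9_pr.Var
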