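import Pool.Agent.Lib.MP_8501c9_pr.Var.Sums
import Pool.Agent.Lib.MP_8501c9_pr.Wide.DefsE

/-!
# Delays of a pattern
-/

set_option autoImplicit false
open Set

namespace Pool.Agent.Lib.MP_8501c9_pr.Var

open Pool.Agent.Lib.MP_8501c9_pr.Wide

/-- delay before the window `t`: time minus `m` times the number of steps -/
def dl (m : ℕ) (A : Finset ℕ) (t : ℕ) : ℤ :=
  (t : ℤ) - m * ((A.filter (fun σ => σ < t)).card : ℤ)

/-- number of the times in `s` with `X t = τ` -/
noncomputable def cnt (s : Finset ℕ) (X : ℕ → ℤ) (τ : ℤ) : ℝ := ∑ t ∈ s, if X t = τ then 1 else 0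

theorem cnt_nonneg (s : Finset ℕ) (X : ℕ → ℤ) (τ : ℤ) : 0 ≤ cnt s X τ :=
  Finset.sum_nonneg fun t _ => by split_ifs <;> norm_num

theorem cnt_zero {s : Finset ℕ} {X : ℕ → ℤ} {τ : ℤ} (h : ∀ t ∈ s, X t ≠ τ) : cnt s X τ = 0 :=
  Finset.sum_eq_zero fun t ht => if_neg (h t ht)

theorem one_le_cnt {s : Finset ℕ} {X : ℕ → ℤ} {t : ℕ} (ht : t ∈ s) : 1 ≤ cnt s X (X t) := by
  have h1 := Finset.single_le_sum (f := fun t' => if X t' = X t then (1 : ℝ) else 0)
    (fun i _ => by split_ifs <;> norm_num) ht
  simp only [if_true] at h1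
  exact h1

theorem fs_single (a : ℤ) (c : ℝ) : FS fun τ => if a = τ then c else 0 := by
  refine ⟨a.natAbs + 1, fun τ hτ => if_neg ?_⟩
  rintro rfl
  push_cast at hτ
  linarith

theorem cnt_fs (s : Finset ℕ) (X : ℕ → ℤ) : FS (cnt s X) :=
  FS.finset_sum _ fun t _ => fs_single (X t) 1

theorem cnt_tsum (s : Finset ℕ) (X : ℕ → ℤ) (g : ℤ → ℝ) :
    ∑' τ, cnt s X τ * g τ = ∑ t ∈ s, g (X t) := by
  have h1 : ∀ τ, cnt s X τ * g τ = ∑ t ∈ s, if X t = τ then g (X t) else 0 := by
    intro τ
    unfold cnt
    rw [Finset.sum_mul]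
    refine Finset.sum_congr rfl fun t _ => ?_
    split_ifs with h
    · rw [h, one_mul]
    · rw [zero_mul]
  rw [tsum_congr h1, Summable.tsum_finsetSum fun t _ => (fs_single (X t) (g (X t))).summable]
  refine Finset.sum_congr rfl fun t _ => ?_
  rw [tsum_eq_single (X t)]
  · rw [if_pos rfl]
  · intro τ hτ
    exact if_neg (Ne.symm hτ)

theorem dl_zero (m : ℕ) (A : Finset ℕ) : dl m A 0 = 0 := by
  simp [dl]

theorem dl_succ (m : ℕ) (A : Finset ℕ) (t : ℕ) :
    dl m A (t + 1) = dl m A t + 1 - if t ∈ A then (m : ℤ) else 0 := by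
  have h1 : (A.filter (fun σ => σ < t + 1)).card =
      (A.filter (fun σ => σ < t)).card + if t ∈ A then 1 else 0 := by
    split_ifs with h
    · have h2 : A.filter (fun σ => σ < t + 1) = insert t (A.filter (fun σ => σ < t)) := by
        ext σ
        simp only [Finset.mem_filter, Finset.mem_insert]
        constructor
        · rintro ⟨h3, h4⟩
          rcases Nat.lt_succ_iff_lt_or_eq.1 h4 with h5 | h5
          · exact Or.inr ⟨h3, h5⟩
          · exact Or.inl h5
        · rintro (h3 | ⟨h3, h4⟩)
          · rw [h3]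
            exact ⟨h, by omega⟩
          · exact ⟨h3, by omega⟩
      rw [h2, Finset.card_insert_of_notMem]
      simp
    · rw [add_zero]
      congr 1
      ext σ
      simp only [Finset.mem_filter]
      constructor
      · rintro ⟨h3, h4⟩
        refine ⟨h3, lt_of_le_of_ne (by omega) ?_⟩
        rintro rfl
        exact h h3
      · rintro ⟨h3, h4⟩
        exact ⟨h3, by omega⟩
  unfold dl
  rw [h1]
  push_cast
  split_ifs <;> ring

/-- balance of a path -/
theorem balance (m : ℕ) (hm : 1 ≤ m) (A : Finset ℕ) (τ : ℤ) (T : ℕ) :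
    cnt (Finset.range T) (dl m A) τ -
      ∑ i ∈ Finset.range m, cnt ((Finset.range T).filter (fun t => t ∈ A)) (dl m A) (τ + i) =
      (if τ < dl m A T then 1 else 0) - if τ < 0 then 1 else 0 := by
  induction T with
  | zero =>
    rw [dl_zero]
    simp [cnt]
  | succ T ih =>
    have h1 : cnt (Finset.range (T + 1)) (dl m A) τ =
        cnt (Finset.range T) (dl m A) τ + if dl m A T = τ then 1 else 0 := by
      unfold cnt
      rw [Finset.sum_range_succ]
    have h2 : ∀ i : ℕ, cnt ((Finset.range (T + 1)).filter (fun t => t ∈ A)) (dl m A) (τ + i) =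
        cnt ((Finset.range T).filter (fun t => t ∈ A)) (dl m A) (τ + i) +
          if T ∈ A then (if dl m A T = τ + i then 1 else 0) else 0 := by
      intro i
      unfold cnt
      rw [Finset.range_add_one, Finset.filter_insert]
      split_ifs with h3 h4 h4
      · rw [Finset.sum_insert (by simp), if_pos h4, add_comm]
      · rw [Finset.sum_insert (by simp), if_neg h4, add_comm]
      · rw [add_zero]
    have h3 : ∑ i ∈ Finset.range m, (if dl m A T = τ + (i : ℤ) then (1 : ℝ) else 0) =
        if τ ≤ dl m A T ∧ dl m A T < τ + m then 1 else 0 := by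
      split_ifs with h4
      · rw [Finset.sum_eq_single_of_mem (dl m A T - τ).toNat (Finset.mem_range.2 (by omega))]
        · rw [if_pos]
          have : (((dl m A T - τ).toNat : ℕ) : ℤ) = dl m A T - τ := Int.toNat_of_nonneg (by omega)
          rw [this]
          ring
        · intro i _ hi
          refine if_neg fun h5 => hi ?_
          omega
      · refine Finset.sum_eq_zero fun i hi => if_neg fun h5 => h4 ?_
        have := Finset.mem_range.1 hi
        constructor <;> omega
    rw [h1, Finset.sum_congr rfl fun i _ => h2 i, Finset.sum_add_distrib]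
    have h4 : ∑ i ∈ Finset.range m, (if T ∈ A then (if dl m A T = τ + (i : ℤ) then (1 : ℝ) else 0)
        else 0) = if T ∈ A then (if τ ≤ dl m A T ∧ dl m A T < τ + m then 1 else 0) else 0 := by
      split_ifs with h5 h6
      · rw [h3, if_pos h6]
      · rw [h3, if_neg h6]
      · exact Finset.sum_const_zero
    rw [h4, dl_succ]
    have h5 : cnt (Finset.range T) (dl m A) τ =
        ∑ i ∈ Finset.range m, cnt ((Finset.range T).filter (fun t => t ∈ A)) (dl m A) (τ + i) +
          ((if τ < dl m A T then 1 else 0) - if τ < 0 then 1 else 0) := by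
      linarith
    rw [h5]
    have h6 : ((if τ < dl m A T then (1 : ℝ) else 0) + (if dl m A T = τ then 1 else 0) -
        if T ∈ A then (if τ ≤ dl m A T ∧ dl m A T < τ + m then 1 else 0) else 0) =
        if τ < dl m A T + 1 - (if T ∈ A then (m : ℤ) else 0) then 1 else 0 := by
      by_cases hA : T ∈ A
      · rw [if_pos hA, if_pos hA]
        rcases lt_trichotomy (dl m A T) τ with h7 | h7 | h7
        · rw [if_neg (by omega), if_neg (by omega), if_neg (by omega), if_neg (by omega)]
          norm_num
        · rw [if_neg (by omega), if_pos h7, if_pos (by omega), if_neg (by omega)]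
          norm_num
        · rw [if_pos h7, if_neg (by omega)]
          rcases lt_or_ge (dl m A T) (τ + m) with h8 | h8
          · rw [if_pos (by omega), if_neg (by omega)]
            norm_num
          · rw [if_neg (by omega), if_pos (by omega)]
            norm_num
      · rw [if_neg hA, if_neg hA]
        rcases lt_trichotomy (dl m A T) τ with h7 | h7 | h7
        · rw [if_neg (by omega), if_neg (by omega), if_neg (by omega)]
          norm_num
        · rw [if_neg (by omega), if_pos h7, if_pos (by omega)]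
          norm_num
        · rw [if_pos h7, if_neg (by omega), if_pos (by omega)]
          norm_num
    linarith

theorem mem_pats {n m : ℕ} {A : Finset ℕ} (h : A ∈ pats n m) :
    A ⊆ Finset.range (n * m) ∧ A.card = n := Finset.mem_powersetCard.1 h

theorem balance_pats {n m : ℕ} (hm : 1 ≤ m) {A : Finset ℕ} (h : A ∈ pats n m) (τ : ℤ) :
    cnt (Finset.range (n * m)) (dl m A) τ = ∑ i ∈ Finset.range m, cnt A (dl m A) (τ + i) := by
  obtain ⟨h1, h2⟩ := mem_pats h
  have h3 := balance m hm A τ (n * m)
  have h4 : (Finset.range (n * m)).filter (fun t => t ∈ A) = A := by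
    ext t
    simp only [Finset.mem_filter]
    exact ⟨fun h5 => h5.2, fun h5 => ⟨h1 h5, h5⟩⟩
  have h5 : dl m A (n * m) = 0 := by
    unfold dl
    have h6 : A.filter (fun σ => σ < n * m) = A := by
      ext t
      simp only [Finset.mem_filter]
      exact ⟨fun h5 => h5.1, fun h5 => ⟨h5, Finset.mem_range.1 (h1 h5)⟩⟩
    rw [h6, h2]
    push_cast
    ring
  rw [h4, h5] at h3
  linarith

theorem dl_mod (m : ℕ) (A : Finset ℕ) (t : ℕ) : dl m A t % m = ((t % m : ℕ) : ℤ) := by
  unfold dl
  rw [sub_eq_add_neg, ← mul_neg, Int.add_mul_emod_self_left]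
  push_cast
  rfl

theorem dl_div {m : ℕ} (hm : 1 ≤ m) (A : Finset ℕ) (t : ℕ) : dl m A t / m = -posn m A t := by
  unfold dl posn
  rw [sub_eq_add_neg, ← mul_neg, Int.add_mul_ediv_left _ _ (by omega)]
  push_cast
  ring

theorem cnt_tile {m : ℕ} (hm : 1 ≤ m) (A : Finset ℕ) (w : ℕ) (hw : w < m) :
    ∑' j : ℤ, cnt A (dl m A) (w + j * m) = kw m A w := by
  have hmz : (m : ℤ) ≠ 0 := by omega
  have hs : ∀ t ∈ A, Summable fun j : ℤ => if dl m A t = w + j * m then (1 : ℝ) else 0 := by
    intro t _
    refine summable_of_ne_finset_zero (s := {dl m A t / m}) fun j hj => if_neg fun h1 => hj ?_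
    rw [Finset.mem_singleton, h1, Int.add_mul_ediv_right _ _ hmz]
    have : ((w : ℤ)) / m = 0 := Int.ediv_eq_zero_of_lt (by positivity) (by exact_mod_cast hw)
    rw [this, zero_add]
  have h1 : ∀ t ∈ A, ∑' j : ℤ, (if dl m A t = w + j * m then (1 : ℝ) else 0) =
      if t % m = w then 1 else 0 := by
    intro t _
    have e1 := Int.emod_add_mul_ediv (dl m A t) m
    rw [dl_mod] at e1
    rw [tsum_eq_single (dl m A t / m)]
    · by_cases h2 : t % m = w
      · rw [if_pos h2, if_pos]
        rw [h2] at e1
        linarith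
      · rw [if_neg h2, if_neg]
        intro h3
        apply h2
        have : ((t % m : ℕ) : ℤ) = w := by linarith
        exact_mod_cast this
    · intro j hj
      refine if_neg fun h3 => hj ?_
      rw [h3, Int.add_mul_ediv_right _ _ hmz]
      have : ((w : ℤ)) / m = 0 := Int.ediv_eq_zero_of_lt (by positivity) (by exact_mod_cast hw)
      rw [this, zero_add]
  unfold cnt
  rw [Summable.tsum_finsetSum hs, Finset.sum_congr rfl h1]
  unfold kw
  rw [Finset.sum_boole]

end Pool.Agent.Lib.MP_8501c9_pr.Var
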