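import Pool.Agent.Lib.MP_8501c9_pr.Var.Gibbs
import Pool.Agent.Lib.MP_8501c9_pr.Wide.Vlim

/-!
# The free energy is bounded by the entropy of the delays
-/

set_option autoImplicit false
open Set

namespace Pool.Agent.Lib.MP_8501c9_pr.Var

open Pool.Agent.Lib.MP_8501c9_pr.Wide

theorem dl_insert (m : ℕ) {A : Finset ℕ} {T t : ℕ} (h : t ≤ T) :
    dl m (insert T A) t = dl m A t := by
  unfold dl
  rw [Finset.filter_insert, if_neg (by omega)]

/-- the product of the transition probabilities sums to one -/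
theorem total_Q (m : ℕ) (r : ℤ → ℝ) (T : ℕ) :
    ∑ A ∈ (Finset.range T).powerset,
      ∏ t ∈ Finset.range T, (if t ∈ A then r (dl m A t) else 1 - r (dl m A t)) = 1 := by
  induction T with
  | zero => simp
  | succ T ih =>
    rw [Finset.range_add_one, Finset.sum_powerset_insert (by simp), ← Finset.sum_add_distrib]
    refine Eq.trans (Finset.sum_congr rfl fun A hA => ?_) ih
    have hTA : T ∉ A := fun h => by
      have := Finset.mem_range.1 (Finset.mem_powerset.1 hA h)
      omega
    rw [Finset.prod_insert (by simp), Finset.prod_insert (by simp), if_neg hTA,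
      if_pos (Finset.mem_insert_self _ _), dl_insert m le_rfl]
    have h1 : ∏ t ∈ Finset.range T, (if t ∈ insert T A then r (dl m (insert T A) t)
        else 1 - r (dl m (insert T A) t)) =
        ∏ t ∈ Finset.range T, (if t ∈ A then r (dl m A t) else 1 - r (dl m A t)) := by
      refine Finset.prod_congr rfl fun t ht => ?_
      have ht' := Finset.mem_range.1 ht
      rw [dl_insert m ht'.le]
      have h2 : t ∈ insert T A ↔ t ∈ A := by
        rw [Finset.mem_insert]
        exact ⟨fun h => h.resolve_left (by omega), Or.inr⟩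
      simp only [h2]
    rw [h1]
    ring

/-- probability of a pattern -/
noncomputable def gp (κ : ℝ) (n m : ℕ) (u : ℕ → ℝ) (A : Finset ℕ) : ℝ :=
  pwt κ n m u A / ZZ κ n m u

/-- expected number of steps at the delay `τ`, per level -/
noncomputable def gF (κ : ℝ) (n m : ℕ) (u : ℕ → ℝ) (τ : ℤ) : ℝ :=
  (∑ A ∈ pats n m, gp κ n m u A * cnt A (dl m A) τ) / n

theorem gp_pos {κ : ℝ} {n m : ℕ} (hm : 1 ≤ m) (u : ℕ → ℝ) (A : Finset ℕ) :
    0 < gp κ n m u A := div_pos (e1_pwt_pos κ n m u A) (e3_ZZ_pos κ n m hm u)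

theorem gp_sum {κ : ℝ} {n m : ℕ} (hm : 1 ≤ m) (u : ℕ → ℝ) :
    ∑ A ∈ pats n m, gp κ n m u A = 1 := by
  unfold gp
  rw [← Finset.sum_div]
  exact div_self (e3_ZZ_pos κ n m hm u).ne'

theorem gF_fs (κ : ℝ) (n m : ℕ) (u : ℕ → ℝ) : FS (gF κ n m u) := by
  have h1 : FS fun τ => ∑ A ∈ pats n m, gp κ n m u A * cnt A (dl m A) τ :=
    FS.finset_sum _ fun A _ => (cnt_fs A (dl m A)).mul_left _
  exact h1.of_imp fun τ hτ => by
    show (∑ A ∈ pats n m, gp κ n m u A * cnt A (dl m A) τ) / n = 0
    rw [hτ, zero_div]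

theorem gF_dadm {κ : ℝ} {n m : ℕ} (hn : 1 ≤ n) (hm : 1 ≤ m) {u : ℕ → ℝ}
    (hr : ∀ w < m, ∑ A ∈ pats n m, pwt κ n m u A * kw m A w = (n : ℝ) / m * ZZ κ n m u) :
    DAdm m (gF κ n m u) := by
  have hn0 : (0 : ℝ) < n := by exact_mod_cast hn
  have hZ := e3_ZZ_pos κ n m hm u
  refine ⟨fun τ => ?_, gF_fs κ n m u, fun w hw => ?_⟩
  · exact div_nonneg (Finset.sum_nonneg fun A _ => mul_nonneg (gp_pos hm u A).le
      (cnt_nonneg _ _ _)) hn0.le
  · have hs : ∀ A ∈ pats n m, Summable fun j : ℤ =>
        gp κ n m u A * cnt A (dl m A) (w + j * m) := by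
      intro A _
      apply Summable.mul_left
      have h1 := ((cnt_fs A (dl m A)).block hm (w : ℤ) (by
        rw [Nat.abs_cast]
        exact_mod_cast hw.le)).summable
      exact h1.congr fun j => by rw [add_comm]
    have h1 : ∑' j : ℤ, gF κ n m u (w + j * m) =
        (∑ A ∈ pats n m, gp κ n m u A * kw m A w) / n := by
      unfold gF
      rw [tsum_div_const, Summable.tsum_finsetSum hs]
      congr 1
      refine Finset.sum_congr rfl fun A _ => ?_
      rw [tsum_mul_left, cnt_tile hm A w hw]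
    have h2 : ∑ A ∈ pats n m, gp κ n m u A * kw m A w = (n : ℝ) / m := by
      have h3 := hr w hw
      unfold gp
      have h4 : ∑ A ∈ pats n m, pwt κ n m u A / ZZ κ n m u * kw m A w =
          (∑ A ∈ pats n m, pwt κ n m u A * kw m A w) / ZZ κ n m u := by
        rw [Finset.sum_div]
        exact Finset.sum_congr rfl fun A _ => by ring
      rw [h4, h3]
      field_simp
    rw [h1, h2]
    field_simp

theorem gM_eq {κ : ℝ} {n m : ℕ} (hm : 1 ≤ m) (u : ℕ → ℝ) (τ : ℤ) :
    wm m (gF κ n m u) τ =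
      (∑ A ∈ pats n m, gp κ n m u A * cnt (Finset.range (n * m)) (dl m A) τ) / n := by
  unfold wm gF
  rw [← Finset.sum_div, Finset.sum_comm]
  congr 1
  refine Finset.sum_congr rfl fun A hA => ?_
  rw [← Finset.mul_sum, balance_pats hm hA]

/-- the free energy is at most the entropy of the delays minus the penalty -/
theorem gibbs_main {κ : ℝ} {n m : ℕ} (hn : 1 ≤ n) (hm : 1 ≤ m) {u : ℕ → ℝ}
    (hu : ∑ w ∈ Finset.range m, u w = 0)
    (hr : ∀ w < m, ∑ A ∈ pats n m, pwt κ n m u A * kw m A w = (n : ℝ) / m * ZZ κ n m u) :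
    Real.log (ZZ κ n m u) / n ≤ -Real.log m -
      κ / m * ∑' τ : ℤ, pen m τ * wm m (gF κ n m u) τ -
      ∑' τ : ℤ, (gF κ n m u τ * Real.log (gF κ n m u τ / wm m (gF κ n m u) τ) +
        (wm m (gF κ n m u) τ - gF κ n m u τ) *
          Real.log (1 - gF κ n m u τ / wm m (gF κ n m u) τ)) := by
  have hn0 : (0 : ℝ) < n := by exact_mod_cast hn
  have hm0 : (0 : ℝ) < m := by exact_mod_cast hm
  have hZ := e3_ZZ_pos κ n m hm u
  have hd := gF_dadm hn hm hr
  set F := gF κ n m u with hF
  set M := wm m F with hM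
  set π : Finset ℕ → ℝ := gp κ n m u with hπ
  have hπ0 : ∀ A, 0 < π A := fun A => gp_pos hm u A
  have hπ1 : ∑ A ∈ pats n m, π A = 1 := gp_sum hm u
  have hFM : ∀ τ, F τ ≤ M τ := le_wm hm hd.nonneg
  have hM0 : ∀ τ, 0 ≤ M τ := wm_nonneg hd.nonneg
  have hMeq : ∀ τ, M τ =
      (∑ A ∈ pats n m, π A * cnt (Finset.range (n * m)) (dl m A) τ) / n := fun τ => gM_eq hm u τ
  have hFeq : ∀ τ, F τ = (∑ A ∈ pats n m, π A * cnt A (dl m A) τ) / n := fun τ => rfl
  set r : ℤ → ℝ := fun τ => F τ / M τ with hrdef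
  have hr0 : ∀ τ, 0 ≤ r τ := fun τ => div_nonneg (hd.nonneg τ) (hM0 τ)
  have hr1 : ∀ τ, r τ ≤ 1 := fun τ => div_le_one_of_le₀ (hFM τ) (hM0 τ)
  -- sums over the delays
  have hsumF : ∀ g : ℤ → ℝ, ∑' τ, F τ * g τ = (∑ A ∈ pats n m, π A * ∑ t ∈ A, g (dl m A t)) / n := by
    intro g
    have h1 : ∀ τ, F τ * g τ = (∑ A ∈ pats n m, π A * (cnt A (dl m A) τ * g τ)) / n := by
      intro τ
      rw [hFeq, div_mul_eq_mul_div, Finset.sum_mul]
      congr 1
      exact Finset.sum_congr rfl fun A _ => by ring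
    rw [tsum_congr h1, tsum_div_const, Summable.tsum_finsetSum]
    · congr 1
      refine Finset.sum_congr rfl fun A _ => ?_
      rw [tsum_mul_left, cnt_tsum]
    · intro A _
      exact ((cnt_fs A (dl m A)).mul_right g).summable.mul_left _
  have hsumM : ∀ g : ℤ → ℝ, ∑' τ, M τ * g τ =
      (∑ A ∈ pats n m, π A * ∑ t ∈ Finset.range (n * m), g (dl m A t)) / n := by
    intro g
    have h1 : ∀ τ, M τ * g τ = (∑ A ∈ pats n m,
        π A * (cnt (Finset.range (n * m)) (dl m A) τ * g τ)) / n := by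
      intro τ
      rw [hMeq, div_mul_eq_mul_div, Finset.sum_mul]
      congr 1
      exact Finset.sum_congr rfl fun A _ => by ring
    rw [tsum_congr h1, tsum_div_const, Summable.tsum_finsetSum]
    · congr 1
      refine Finset.sum_congr rfl fun A _ => ?_
      rw [tsum_mul_left, cnt_tsum]
    · intro A _
      exact ((cnt_fs _ (dl m A)).mul_right g).summable.mul_left _
  -- the comparison chain
  set q : Finset ℕ → ℝ := fun A => ∏ t ∈ Finset.range (n * m),
    (if t ∈ A then r (dl m A t) else 1 - r (dl m A t)) with hq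
  have hq0 : ∀ A, 0 ≤ q A := fun A => Finset.prod_nonneg fun t _ => by
    split_ifs
    · exact hr0 _
    · linarith [hr1 (dl m A t)]
  have hq1 : ∑ A ∈ pats n m, q A ≤ 1 := by
    rw [← total_Q m r (n * m)]
    refine Finset.sum_le_sum_of_subset_of_nonneg (fun A hA => ?_) fun A _ _ => hq0 A
    exact Finset.mem_powerset.2 (mem_pats hA).1
  -- the factors are positive on patterns
  have hpos1 : ∀ A ∈ pats n m, ∀ t ∈ A, 0 < r (dl m A t) := by
    intro A hA t ht
    have h1 : 0 < F (dl m A t) := by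
      rw [hFeq]
      apply div_pos _ hn0
      have h2 : π A * 1 ≤ π A * cnt A (dl m A) (dl m A t) :=
        mul_le_mul_of_nonneg_left (one_le_cnt ht) (hπ0 A).le
      have h3 := Finset.single_le_sum (f := fun B => π B * cnt B (dl m B) (dl m A t))
        (fun B _ => mul_nonneg (hπ0 B).le (cnt_nonneg _ _ _)) hA
      have := hπ0 A
      linarith
    exact div_pos h1 (lt_of_lt_of_le h1 (hFM _))
  have hpos2 : ∀ A ∈ pats n m, ∀ t ∈ Finset.range (n * m), t ∉ A → 0 < 1 - r (dl m A t) := by
    intro A hA t ht htA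
    have h1 : 0 < M (dl m A t) - F (dl m A t) := by
      rw [hFeq, hMeq, ← sub_div, ← Finset.sum_sub_distrib]
      apply div_pos _ hn0
      have h2 : ∀ B ∈ pats n m, π B * cnt (Finset.range (n * m)) (dl m B) (dl m A t) -
          π B * cnt B (dl m B) (dl m A t) =
          π B * cnt (Finset.range (n * m) \ B) (dl m B) (dl m A t) := by
        intro B hB
        rw [← mul_sub]
        congr 1
        unfold cnt
        rw [← Finset.sum_sdiff (mem_pats hB).1]
        ring
      rw [Finset.sum_congr rfl h2]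
      have h3 : π A * 1 ≤ π A * cnt (Finset.range (n * m) \ A) (dl m A) (dl m A t) :=
        mul_le_mul_of_nonneg_left (one_le_cnt (Finset.mem_sdiff.2 ⟨ht, htA⟩)) (hπ0 A).le
      have h4 := Finset.single_le_sum
        (f := fun B => π B * cnt (Finset.range (n * m) \ B) (dl m B) (dl m A t))
        (fun B _ => mul_nonneg (hπ0 B).le (cnt_nonneg _ _ _)) hA
      have := hπ0 A
      linarith
    have h5 : 0 < M (dl m A t) := by linarith [hd.nonneg (dl m A t)]
    show 0 < 1 - F (dl m A t) / M (dl m A t)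
    rw [sub_pos, div_lt_one h5]
    linarith
  have hqpos : ∀ A ∈ pats n m, 0 < q A := by
    intro A hA
    refine Finset.prod_pos fun t ht => ?_
    split_ifs with h1
    · exact hpos1 A hA t h1
    · exact hpos2 A hA t ht h1
  have hlogq : ∀ A ∈ pats n m, Real.log (q A) = ∑ t ∈ A, Real.log (r (dl m A t)) +
      (∑ t ∈ Finset.range (n * m), Real.log (1 - r (dl m A t)) -
        ∑ t ∈ A, Real.log (1 - r (dl m A t))) := by
    intro A hA
    rw [hq, Real.log_prod]
    · have hsub := (mem_pats hA).1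
      rw [← Finset.sum_sdiff hsub, ← Finset.sum_sdiff (f := fun t => Real.log (1 - r (dl m A t)))
        hsub]
      have h1 : ∑ t ∈ Finset.range (n * m) \ A,
          Real.log (if t ∈ A then r (dl m A t) else 1 - r (dl m A t)) =
          ∑ t ∈ Finset.range (n * m) \ A, Real.log (1 - r (dl m A t)) :=
        Finset.sum_congr rfl fun t ht => by rw [if_neg (Finset.mem_sdiff.1 ht).2]
      have h2 : ∑ t ∈ A, Real.log (if t ∈ A then r (dl m A t) else 1 - r (dl m A t)) =
          ∑ t ∈ A, Real.log (r (dl m A t)) :=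
        Finset.sum_congr rfl fun t ht => by rw [if_pos ht]
      rw [h1, h2]
      ring
    · intro t ht
      split_ifs with h1
      · exact (hpos1 A hA t h1).ne'
      · exact (hpos2 A hA t ht h1).ne'
  -- the inequality of Gibbs
  have hgibbs : ∑ A ∈ pats n m, π A * Real.log (q A) ≤ ∑ A ∈ pats n m, π A * Real.log (π A) := by
    have h1 : ∀ A ∈ pats n m, π A * Real.log (q A) ≤ π A * Real.log (π A) + (q A - π A) := by
      intro A hA
      have h2 := Real.log_le_sub_one_of_pos (div_pos (hqpos A hA) (hπ0 A))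
      rw [Real.log_div (hqpos A hA).ne' (hπ0 A).ne'] at h2
      have h3 := mul_le_mul_of_nonneg_left h2 (hπ0 A).le
      have h4 : π A * (q A / π A - 1) = q A - π A := by
        have := (hπ0 A).ne'
        field_simp
      rw [h4] at h3
      linarith
    have h2 := Finset.sum_le_sum h1
    rw [Finset.sum_add_distrib, Finset.sum_sub_distrib, hπ1] at h2
    linarith
  -- the free energy
  have hlogZ : Real.log (ZZ κ n m u) = ∑ A ∈ pats n m, π A * Real.log (pwt κ n m u A) -
      ∑ A ∈ pats n m, π A * Real.log (π A) := by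
    rw [← Finset.sum_sub_distrib]
    have h1 : ∀ A ∈ pats n m, π A * Real.log (pwt κ n m u A) - π A * Real.log (π A) =
        π A * Real.log (ZZ κ n m u) := by
      intro A _
      have h2 : Real.log (π A) = Real.log (pwt κ n m u A) - Real.log (ZZ κ n m u) := by
        rw [hπ]
        unfold gp
        exact Real.log_div (e1_pwt_pos κ n m u A).ne' hZ.ne'
      rw [h2]
      ring
    rw [Finset.sum_congr rfl h1, ← Finset.sum_mul, hπ1, one_mul]
  have hstat : ∑ A ∈ pats n m, π A * ∑ t ∈ A, u (t % m) = 0 := by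
    have h1 : ∀ A ∈ pats n m, π A * ∑ t ∈ A, u (t % m) =
        ∑ w ∈ Finset.range m, u w * (pwt κ n m u A * kw m A w) / ZZ κ n m u := by
      intro A _
      rw [e3_sum_mod hm A u, Finset.mul_sum, hπ]
      unfold gp
      exact Finset.sum_congr rfl fun w _ => by ring
    rw [Finset.sum_congr rfl h1, Finset.sum_comm]
    have h2 : ∀ w ∈ Finset.range m, ∑ A ∈ pats n m,
        u w * (pwt κ n m u A * kw m A w) / ZZ κ n m u = u w * ((n : ℝ) / m) := by
      intro w hw
      rw [← Finset.sum_div, ← Finset.mul_sum, hr w (Finset.mem_range.1 hw)]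
      field_simp
    rw [Finset.sum_congr rfl h2, ← Finset.sum_mul, hu, zero_mul]
  have hweight : ∑ A ∈ pats n m, π A * Real.log (pwt κ n m u A) =
      -(n * Real.log m) - κ / m * (n * ∑' τ, M τ * pen m τ) := by
    have h1 : ∀ A ∈ pats n m, π A * Real.log (pwt κ n m u A) =
        π A * ∑ t ∈ A, u (t % m) - π A * (n * Real.log m) -
          κ / m * (π A * ∑ t ∈ Finset.range (n * m), pen m (dl m A t)) := by
      intro A hA
      unfold pwt
      rw [Real.log_exp, Finset.sum_sub_distrib, Finset.sum_const, (mem_pats hA).2, nsmul_eq_mul]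
      have h2 : ∑ t ∈ Finset.range (n * m), (posn m A t : ℝ) * ((posn m A t : ℝ) - 1) =
          ∑ t ∈ Finset.range (n * m), pen m (dl m A t) := by
        refine Finset.sum_congr rfl fun t _ => ?_
        unfold pen
        rw [dl_div hm]
        push_cast
        ring
      rw [h2]
      ring
    rw [Finset.sum_congr rfl h1, Finset.sum_sub_distrib, Finset.sum_sub_distrib, hstat,
      ← Finset.sum_mul, hπ1, ← Finset.mul_sum, hsumM]
    field_simp
    ring
  have hent : ∑ A ∈ pats n m, π A * Real.log (q A) = n * ∑' τ : ℤ,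
      (F τ * Real.log (r τ) + (M τ - F τ) * Real.log (1 - r τ)) := by
    have fF := hd.fs
    have fM : FS M := hd.fs.wm
    have h1 : ∑' τ : ℤ, (F τ * Real.log (r τ) + (M τ - F τ) * Real.log (1 - r τ)) =
        ∑' τ, F τ * Real.log (r τ) + (∑' τ, M τ * Real.log (1 - r τ) -
          ∑' τ, F τ * Real.log (1 - r τ)) := by
      rw [← (fM.mul_right _).summable.tsum_sub (fF.mul_right _).summable,
        ← (fF.mul_right _).summable.tsum_add
          ((fM.mul_right _).summable.sub (fF.mul_right _).summable)]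
      exact tsum_congr fun τ => by ring
    rw [h1, hsumF, hsumM, hsumF]
    have h2 : ∀ A ∈ pats n m, π A * Real.log (q A) =
        π A * ∑ t ∈ A, Real.log (r (dl m A t)) +
        (π A * ∑ t ∈ Finset.range (n * m), Real.log (1 - r (dl m A t)) -
          π A * ∑ t ∈ A, Real.log (1 - r (dl m A t))) := by
      intro A hA
      rw [hlogq A hA]
      ring
    rw [Finset.sum_congr rfl h2, Finset.sum_add_distrib, Finset.sum_sub_distrib]
    field_simp
  have hfin : Real.log (ZZ κ n m u) ≤ -(n * Real.log m) - κ / m * (n * ∑' τ, M τ * pen m τ) -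
      n * ∑' τ : ℤ, (F τ * Real.log (r τ) + (M τ - F τ) * Real.log (1 - r τ)) := by
    rw [hlogZ, hweight, ← hent]
    linarith
  have hcomm : ∑' τ, M τ * pen m τ = ∑' τ, pen m τ * M τ := tsum_congr fun τ => mul_comm _ _
  rw [hcomm] at hfin
  rw [div_le_iff₀ hn0]
  refine hfin.trans (le_of_eq ?_)
  ring

end Pool.Agent.Lib.MP_8501c9_pr.Var
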