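import Pool.Agent.Lib.MP_8501c9_pr.Var.Step2
import Pool.Agent.Lib.MP_8501c9_pr.Var.Gibbs2
import Pool.Agent.Lib.MP_8501c9_pr.Var.Cont3

/-!
# The value of the one-direction problem is the supremum of the functional
-/

set_option autoImplicit false
open Set MeasureTheory

namespace Pool.Agent.Lib.MP_8501c9_pr.Var

open Pool.Agent.Lib.MP_8501c9_pr.Wide

theorem Vvar_bdd {κ : ℝ} (hκ : 0 ≤ κ) :
    BddAbove (Set.range fun p : {p : ℝ → ℝ // Adm p} => J κ p) :=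
  ⟨Vst κ, by rintro _ ⟨p, rfl⟩; exact J_le_Vst hκ p.2⟩

theorem gF_range {κ : ℝ} {n m : ℕ} (hm : 1 ≤ m) (u : ℕ → ℝ) (τ : ℤ)
    (h : gF κ n m u (τ + m) ≠ 0) : pen m τ ≤ n * (n + 1) := by
  have h1 : ∃ A ∈ pats n m, gp κ n m u A * cnt A (dl m A) (τ + m) ≠ 0 := by
    by_contra hc
    push Not at hc
    apply h
    unfold gF
    rw [Finset.sum_eq_zero hc, zero_div]
  obtain ⟨A, hA, h2⟩ := h1
  have h3 : cnt A (dl m A) (τ + m) ≠ 0 := right_ne_zero_of_mul h2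
  have h4 : ∃ t ∈ A, dl m A t = τ + m := by
    by_contra hc
    push Not at hc
    exact h3 (cnt_zero hc)
  obtain ⟨t, ht, h5⟩ := h4
  have hmz : (m : ℤ) ≠ 0 := by omega
  have h6 := dl_div hm A t
  rw [h5] at h6
  have h7 : (τ + m) / (m : ℤ) = τ / m + 1 := by
    have := Int.add_mul_ediv_right τ 1 hmz
    rwa [one_mul] at this
  rw [h7] at h6
  obtain ⟨h8, h9⟩ := mem_pats hA
  have h10 : (A.filter (fun σ => σ < t)).card ≤ n := by
    rw [← h9]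
    exact Finset.card_filter_le _ _
  have h11 : t / m < n := by
    have := Finset.mem_range.1 (h8 ht)
    exact (Nat.div_lt_iff_lt_mul (by omega)).2 this
  have h12 : posn m A t = ((A.filter (fun σ => σ < t)).card : ℤ) - (t / m : ℕ) := rfl
  have h15 : (0 : ℤ) ≤ ((t / m : ℕ) : ℤ) := Int.natCast_nonneg _
  have h13 : τ / (m : ℤ) ≤ n := by omega
  have h14 : -(n : ℤ) - 1 ≤ τ / (m : ℤ) := by omega
  unfold pen
  have : τ / (m : ℤ) * (τ / (m : ℤ) + 1) ≤ n * (n + 1) := by nlinarith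
  exact_mod_cast this

/-- the free energies are bounded by the supremum -/
theorem fe_le_Vvar {κ : ℝ} (hκ : 0 < κ) {n m : ℕ} (hn : 1 ≤ n) (hm : 1 ≤ m) :
    fe κ n m ≤ Vvar κ + κ * (n * (n + 1)) / m := by
  have hm0 : (0 : ℝ) < m := by exact_mod_cast hm
  obtain ⟨u, hu, hr, -⟩ := exists_min κ hκ n m hn hm
  rw [vl_fe hn hm hu hr]
  have h1 := gibbs_main hn hm hu hr
  have hd := gF_dadm hn hm hr
  have h2 := stp_J hκ.le hm hd
  have h3 : J κ (stp m (gF κ n m u)) ≤ Vvar κ :=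
    le_ciSup (Vvar_bdd hκ.le) ⟨stp m (gF κ n m u), stp_adm hm hd⟩
  set F := gF κ n m u with hF
  have s1 : Summable fun τ : ℤ => pen m τ * wm m F τ := (hd.fs.wm.mul_left _).summable
  have s2 : Summable fun τ : ℤ => pen m τ * F (τ + m) := ((hd.fs.shift m).mul_left _).summable
  have h4 : ∑' τ : ℤ, pen m τ * (wm m F τ + F (τ + m)) =
      ∑' τ : ℤ, pen m τ * wm m F τ + ∑' τ : ℤ, pen m τ * F (τ + m) := by
    rw [← s1.tsum_add s2]
    exact tsum_congr fun τ => by ring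
  have h5 : ∑' τ : ℤ, pen m τ * F (τ + m) ≤ n * (n + 1) := by
    have h6 : ∀ τ : ℤ, pen m τ * F (τ + m) ≤ n * (n + 1) * F (τ + m) := by
      intro τ
      rcases eq_or_ne (F (τ + m)) 0 with h0 | h0
      · rw [h0, mul_zero, mul_zero]
      · exact mul_le_mul_of_nonneg_right (gF_range hm u τ h0) (hd.nonneg _)
    have h7 := Summable.tsum_le_tsum h6 s2 ((hd.fs.shift m).summable.mul_left _)
    rw [tsum_mul_left, tsum_shift F m, hd.total hm, mul_one] at h7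
    exact h7
  have h8 : κ / m * ∑' τ : ℤ, pen m τ * F (τ + m) ≤ κ * (n * (n + 1)) / m := by
    have := mul_le_mul_of_nonneg_left h5 (by positivity : 0 ≤ κ / m)
    calc _ ≤ κ / m * (n * (n + 1) : ℝ) := this
      _ = _ := by ring
  rw [h4, mul_add] at h2
  linarith

theorem Vst_le_Vvar {κ : ℝ} (hκ : 0 < κ) : Vst κ ≤ Vvar κ := by
  apply le_of_forall_pos_le_add
  intro ε hε
  obtain ⟨n, hn, hlow⟩ := vl_lower κ (ε / 2) hκ (by linarith)
  obtain ⟨m₀, hm₀⟩ := hlow n le_rfl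
  obtain ⟨m₁, hm₁⟩ := exists_nat_ge (κ * (n * (n + 1)) / (ε / 2))
  have hm : 1 ≤ m₀ + m₁ + 1 := by omega
  have h1 := hm₀ (m₀ + m₁ + 1) (by omega)
  have h2 := fe_le_Vvar hκ hn hm
  have h3 : κ * (n * (n + 1)) / ((m₀ + m₁ + 1 : ℕ) : ℝ) ≤ ε / 2 := by
    rw [div_le_iff₀ (by positivity)]
    rw [div_le_iff₀ (by linarith)] at hm₁
    push_cast
    nlinarith [(Nat.cast_nonneg m₀ : (0 : ℝ) ≤ m₀), (Nat.cast_nonneg m₁ : (0 : ℝ) ≤ m₁)]
  linarith

theorem Vvar_nonempty {κ : ℝ} (hκ : 0 < κ) : Nonempty {p : ℝ → ℝ // Adm p} := by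
  obtain ⟨u, hu, hr, -⟩ := exists_min κ hκ 1 1 le_rfl le_rfl
  exact ⟨⟨_, stp_adm le_rfl (gF_dadm le_rfl le_rfl hr)⟩⟩

/-- the variational formula -/
theorem Vvar_eq {κ : ℝ} (hκ : 0 < κ) : Vvar κ = Vst κ := by
  have hne := Vvar_nonempty hκ
  exact le_antisymm (ciSup_le fun p => J_le_Vst hκ.le p.2) (Vst_le_Vvar hκ)

theorem Vvar_eq_Vlim {κ : ℝ} (hκ : 0 < κ) : Vvar κ = Vlim κ := by
  rw [Vvar_eq hκ, Vlim_eq hκ]

end Pool.Agent.Lib.MP_8501c9_pr.Var
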