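import Pool.Agent.Lib.MP_8501c9_pr.Var.Cont2
import Mathlib.Analysis.SpecialFunctions.Integrals.Basic

/-!
# The functional of a step density
-/

set_option autoImplicit false
open Set MeasureTheory

namespace Pool.Agent.Lib.MP_8501c9_pr.Var

/-- density with the mass `F τ` in the window `τ` -/
noncomputable def stp (m : ℕ) (F : ℤ → ℝ) (x : ℝ) : ℝ := m * F ⌊(m : ℝ) * x⌋

theorem stp_eq {m : ℕ} (hm : 1 ≤ m) (F : ℤ → ℝ) {τ : ℤ} {x : ℝ} (h1 : (τ : ℝ) / m ≤ x)
    (h2 : x < (τ + 1) / m) : stp m F x = m * F τ := by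
  have hm0 : (0 : ℝ) < m := by exact_mod_cast hm
  unfold stp
  congr 2
  rw [Int.floor_eq_iff]
  rw [div_le_iff₀ hm0] at h1
  rw [lt_div_iff₀ hm0] at h2
  constructor <;> linarith

theorem stp_pre {m : ℕ} (hm : 1 ≤ m) {F : ℤ → ℝ} (h : DAdm m F) : Pre (stp m F) := by
  have hm0 : (0 : ℝ) < m := by exact_mod_cast hm
  have hmz : (0 : ℤ) < m := by exact_mod_cast hm
  refine ⟨?_, fun x => mul_nonneg hm0.le (h.nonneg _), ?_, fun x => ?_⟩
  · have h1 : Measurable fun x : ℝ => F ⌊(m : ℝ) * x⌋ :=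
      (measurable_from_top (f := F)).comp (Int.measurable_floor.comp (measurable_const_mul _))
    exact h1.const_mul _
  · obtain ⟨L, hL⟩ := h.fs
    refine ⟨L + 1, fun x hx => ?_⟩
    unfold stp
    rw [hL, mul_zero]
    have hm1 : (1 : ℝ) ≤ m := by exact_mod_cast hm
    rw [le_abs] at hx ⊢
    rcases hx with hx | hx
    · left
      rw [Int.le_floor]
      push_cast
      nlinarith [(Nat.cast_nonneg L : (0 : ℝ) ≤ L)]
    · right
      have h1 : ⌊(m : ℝ) * x⌋ ≤ -(L : ℤ) := by
        have h2 : ((⌊(m : ℝ) * x⌋ : ℤ) : ℝ) ≤ -(L : ℝ) := by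
          refine (Int.floor_le _).trans ?_
          nlinarith [(Nat.cast_nonneg L : (0 : ℝ) ≤ L)]
        exact_mod_cast h2
      linarith
  · unfold stp
    rw [tsum_mul_left]
    set a : ℤ := ⌊(m : ℝ) * x⌋ with ha
    have h1 : ∀ k : ℤ, F ⌊(m : ℝ) * (x + k)⌋ = F (a + k * m) := by
      intro k
      congr 1
      have h2 : (m : ℝ) * (x + k) = m * x + ((k * m : ℤ) : ℝ) := by push_cast; ring
      rw [h2, Int.floor_add_intCast]
    rw [tsum_congr h1]
    have e1 := Int.emod_add_mul_ediv a m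
    have e2 := Int.emod_nonneg a hmz.ne'
    have e3 := Int.emod_lt_of_pos a hmz
    have h3 := h.tile (a % m).toNat (by omega)
    rw [Int.toNat_of_nonneg e2] at h3
    rw [← tsum_shift (fun j : ℤ => F (a % m + j * m)) (a / m)] at h3
    have h4 : ∀ k : ℤ, F (a + k * m) = F (a % m + (k + a / m) * m) := by
      intro k
      congr 1
      linarith
    rw [tsum_congr h4, h3]
    field_simp

theorem int_congr {a b : ℝ} (hab : a ≤ b) {f g : ℝ → ℝ} (h : ∀ x, a < x → x < b → f x = g x) :
    ∫ x in a..b, f x = ∫ x in a..b, g x := by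
  rw [intervalIntegral.integral_of_le hab, intervalIntegral.integral_of_le hab,
    integral_Ioc_eq_integral_Ioo, integral_Ioc_eq_integral_Ioo]
  exact setIntegral_congr_fun measurableSet_Ioo fun x hx => h x hx.1 hx.2

theorem stp_int {m : ℕ} (hm : 1 ≤ m) (F : ℤ → ℝ) {τ : ℤ} {a b : ℝ} (h1 : (τ : ℝ) / m ≤ a)
    (hab : a ≤ b) (h2 : b ≤ (τ + 1) / m) : ∫ x in a..b, stp m F x = (b - a) * (m * F τ) := by
  rw [int_congr hab (g := fun _ => m * F τ) fun x hx1 hx2 =>
    stp_eq hm F (h1.trans hx1.le) (lt_of_lt_of_le hx2 h2), intervalIntegral.integral_const,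
    smul_eq_mul]

theorem stp_win {m : ℕ} (hm : 1 ≤ m) (F : ℤ → ℝ) : win m (stp m F) = F := by
  have hm0 : (0 : ℝ) < m := by exact_mod_cast hm
  funext τ
  unfold win
  rw [stp_int hm F le_rfl (by gcongr; linarith) le_rfl]
  field_simp
  ring

theorem stp_mass {m : ℕ} (hm : 1 ≤ m) {F : ℤ → ℝ} (h : DAdm m F) {τ : ℤ} {x : ℝ}
    (h1 : (τ : ℝ) / m ≤ x) (h2 : x ≤ (τ + 1) / m) :
    mass (stp m F) x = wm m F τ - (x - τ / m) * (m * F τ) + (x - τ / m) * (m * F (τ + m)) := by
  have hm0 : (0 : ℝ) < m := by exact_mod_cast hm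
  have hp := stp_pre hm h
  have h3 := hp.mass_sub (τ / m) x
  rw [hp.mass_win hm, stp_win hm, stp_int hm F le_rfl h1 h2,
    stp_int hm F (τ := τ + m) (a := τ / m + 1) (b := x + 1)] at h3
  · linarith
  · push_cast
    rw [add_div, div_self hm0.ne']
  · linarith
  · push_cast
    have : ((τ : ℝ) + m + 1) / m = (τ + 1) / m + 1 := by field_simp; ring
    rw [this]
    linarith

theorem log_aff_ii (c d a b : ℝ) (hd : d ≠ 0) :
    IntervalIntegrable (fun x => Real.log (c - d * x)) volume a b := by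
  have h0 : IntervalIntegrable Real.log volume (c - d * a) (c - d * b) :=
    intervalIntegral.intervalIntegrable_log'
  have h1 := h0.comp_sub_left c (by simp)
  have h2 := h1.comp_mul_left (c := d) (by simp) (by simp)
  have e1 : (c - (c - d * a)) / d = a := by field_simp; ring
  have e2 : (c - (c - d * b)) / d = b := by field_simp; ring
  rw [e1, e2] at h2
  exact h2

/-- bounds in a window -/
theorem stp_mass_bd {m : ℕ} (hm : 1 ≤ m) {F : ℤ → ℝ} (h : DAdm m F) {τ : ℤ} {x : ℝ}
    (h1 : (τ : ℝ) / m ≤ x) (h2 : x ≤ (τ + 1) / m) :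
    (wm m F τ + τ * F τ) - (m * F τ) * x ≤ mass (stp m F) x ∧
      mass (stp m F) x ≤ wm m F τ + F (τ + m) := by
  have hm0 : (0 : ℝ) < m := by exact_mod_cast hm
  rw [stp_mass hm h h1 h2]
  have h3 : 0 ≤ x - τ / m := by linarith
  have h4 : (x - τ / m) * m ≤ 1 := by
    rw [sub_mul, div_mul_cancel₀ _ hm0.ne']
    rw [le_div_iff₀ hm0] at h2
    linarith
  have h5 : 0 ≤ F (τ + m) := h.nonneg _
  have h6 : 0 ≤ F τ := h.nonneg _
  constructor
  · have h7 : (x - τ / m) * (m * F τ) = m * F τ * x - τ * F τ := by field_simp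
    have h8 : 0 ≤ (x - τ / m) * (m * F (τ + m)) := by positivity
    rw [h7]
    linarith
  · have h7 : 0 ≤ (x - τ / m) * (m * F τ) := by positivity
    have h8 : (x - τ / m) * (m * F (τ + m)) ≤ F (τ + m) := by
      rw [← mul_assoc]
      nlinarith
    linarith

/-- the integrand is integrable -/
theorem stp_adm {m : ℕ} (hm : 1 ≤ m) {F : ℤ → ℝ} (h : DAdm m F) : Adm (stp m F) := by
  have hm0 : (0 : ℝ) < m := by exact_mod_cast hm
  have hp := stp_pre hm h
  refine ⟨hp, ?_⟩
  obtain ⟨L, hL⟩ := h.fs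
  set S : Finset ℤ := Finset.Icc (-(L : ℤ)) L with hS
  have hmeas : Measurable fun x => stp m F x * Real.log (stp m F x / mass (stp m F) x) :=
    hp.meas.mul (Real.measurable_log.comp (hp.meas.div hp.mass_cont.measurable))
  have h1 : ∀ τ ∈ S, IntegrableOn
      (fun x => stp m F x * Real.log (stp m F x / mass (stp m F) x))
      (Ico ((τ : ℝ) / m) ((τ + 1) / m)) := by
    intro τ _
    rcases (h.nonneg τ).eq_or_lt with h0 | h0
    · refine (integrableOn_zero).congr_fun (fun x hx => ?_) measurableSet_Ico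
      rw [stp_eq hm F hx.1 hx.2, ← h0]
      simp
    · have hle : (τ : ℝ) / m ≤ (τ + 1) / m := by gcongr; linarith
      have hd : (m : ℝ) * F τ ≠ 0 := by positivity
      have h2 := log_aff_ii (wm m F τ + τ * F τ) (m * F τ) (τ / m) ((τ + 1) / m) hd
      have h3 : IntervalIntegrable (fun x => m * F τ * (|Real.log (m * F τ)| +
          |Real.log ((wm m F τ + τ * F τ) - m * F τ * x)|)) volume (τ / m) ((τ + 1) / m) :=
        (intervalIntegrable_const.add h2.abs).const_mul _
      rw [intervalIntegrable_iff_integrableOn_Ioo_of_le hle] at h3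
      rw [integrableOn_Ico_iff_integrableOn_Ioo]
      refine h3.mono' hmeas.aestronglyMeasurable ?_
      rw [ae_restrict_iff' measurableSet_Ioo]
      refine Filter.Eventually.of_forall fun x hx => ?_
      have h4 := stp_mass_bd hm h hx.1.le hx.2.le
      have h5 : 0 < (wm m F τ + τ * F τ) - m * F τ * x := by
        have h6 := le_wm hm h.nonneg τ
        have h7 : x * m < τ + 1 := (lt_div_iff₀ hm0).1 hx.2
        nlinarith
      have h6 : 0 < mass (stp m F) x := lt_of_lt_of_le h5 h4.1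
      rw [stp_eq hm F hx.1.le hx.2, Real.norm_eq_abs, abs_mul, abs_of_pos (by positivity),
        Real.log_div hd h6.ne']
      apply mul_le_mul_of_nonneg_left _ (by positivity)
      refine (abs_sub _ _).trans ?_
      have h7 : |Real.log (mass (stp m F) x)| ≤
          |Real.log ((wm m F τ + τ * F τ) - m * F τ * x)| := by
        have h8 := Real.log_le_log h5 h4.1
        have h9 := Real.log_nonpos h6.le (hp.mass_le_one x)
        rw [abs_of_nonpos h9, abs_of_nonpos (h8.trans h9)]
        linarith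
      linarith
  have h2 : IntegrableOn (fun x => stp m F x * Real.log (stp m F x / mass (stp m F) x))
      (⋃ τ ∈ S, Ico ((τ : ℝ) / m) ((τ + 1) / m)) := integrableOn_finset_iUnion.2 h1
  refine h2.integrable_of_forall_notMem_eq_zero fun x hx => ?_
  have h3 : ⌊(m : ℝ) * x⌋ ∉ S := by
    intro h4
    apply hx
    rw [mem_iUnion₂]
    refine ⟨_, h4, ?_, ?_⟩
    · rw [div_le_iff₀ hm0, mul_comm x]
      exact Int.floor_le _
    · rw [lt_div_iff₀ hm0, mul_comm x]
      exact Int.lt_floor_add_one _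
  have h4 : stp m F x = 0 := by
    unfold stp
    rw [hL, mul_zero]
    by_contra h5
    apply h3
    rw [hS, Finset.mem_Icc]
    push Not at h5
    rw [abs_lt] at h5
    constructor <;> omega
  rw [h4, zero_mul]

end Pool.Agent.Lib.MP_8501c9_pr.Var
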