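import Pool.Agent.Lib.MP_8501c9_pr.Var.Step

/-!
# The functional of a step density, lower bound
-/

set_option autoImplicit false
open Set MeasureTheory

namespace Pool.Agent.Lib.MP_8501c9_pr.Var

theorem stp_win_ent {m : ℕ} (hm : 1 ≤ m) {F : ℤ → ℝ} (h : DAdm m F) (τ : ℤ) :
    win m (fun x => stp m F x * Real.log (stp m F x / mass (stp m F) x)) τ ≤
      F τ * Real.log m + F τ + (F τ * Real.log (F τ / wm m F τ) +
        (wm m F τ - F τ) * Real.log (1 - F τ / wm m F τ)) := by
  have hm0 : (0 : ℝ) < m := by exact_mod_cast hm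
  have hle : (τ : ℝ) / m ≤ (τ + 1) / m := by gcongr; linarith
  rcases (h.nonneg τ).eq_or_lt with h0 | h0
  · unfold win
    rw [int_congr hle (g := fun _ => (0 : ℝ)) fun x hx1 hx2 => by
      rw [stp_eq hm F hx1.le hx2, ← h0]; simp]
    rw [← h0]
    simp
  set M : ℝ := wm m F τ with hM
  have hMF : F τ ≤ M := le_wm hm h.nonneg τ
  have hM0 : 0 < M := lt_of_lt_of_le h0 hMF
  set c : ℝ := M + τ * F τ with hc
  set d : ℝ := m * F τ with hd
  have hd0 : 0 < d := by positivity
  have hint : IntervalIntegrable (fun x => d * (Real.log d - Real.log (c - d * x))) volume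
      (τ / m) ((τ + 1) / m) :=
    (intervalIntegrable_const.sub (log_aff_ii c d _ _ hd0.ne')).const_mul _
  have h1 : win m (fun x => stp m F x * Real.log (stp m F x / mass (stp m F) x)) τ ≤
      ∫ x in (τ / m : ℝ)..((τ + 1) / m), d * (Real.log d - Real.log (c - d * x)) := by
    unfold win
    refine intervalIntegral.integral_mono_on_of_le_Ioo hle
      (stp_adm hm h).int.intervalIntegrable hint fun x hx => ?_
    have h4 := stp_mass_bd hm h hx.1.le hx.2.le
    have h5 : 0 < c - d * x := by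
      have h7 : x * m < τ + 1 := (lt_div_iff₀ hm0).1 hx.2
      have h8 : d * x = F τ * (x * m) := by rw [hd]; ring
      rw [h8, hc]
      nlinarith
    have h6 : 0 < mass (stp m F) x := lt_of_lt_of_le h5 h4.1
    rw [stp_eq hm F hx.1.le hx.2, Real.log_div hd0.ne' h6.ne']
    apply mul_le_mul_of_nonneg_left _ hd0.le
    have := Real.log_le_log h5 h4.1
    linarith
  refine h1.trans (le_of_eq ?_)
  rw [intervalIntegral.integral_const_mul,
    intervalIntegral.integral_sub intervalIntegrable_const (log_aff_ii c d _ _ hd0.ne'),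
    intervalIntegral.integral_const, intervalIntegral.integral_comp_sub_mul _ hd0.ne',
    integral_log]
  have e1 : c - d * ((τ + 1) / m) = M - F τ := by rw [hc, hd]; field_simp; ring
  have e2 : c - d * (τ / m) = M := by rw [hc, hd]; field_simp; ring
  have e3 : ((τ : ℝ) + 1) / m - τ / m = 1 / m := by ring
  rw [e1, e2, e3, smul_eq_mul, smul_eq_mul]
  have e4 : d * (1 / m * Real.log d - d⁻¹ * (M * Real.log M - (M - F τ) * Real.log (M - F τ) - M +
      (M - F τ))) = F τ * Real.log d - (M * Real.log M - (M - F τ) * Real.log (M - F τ) - F τ) := by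
    have : d * (1 / m * Real.log d) = F τ * Real.log d := by rw [hd]; field_simp
    rw [mul_sub, this]
    field_simp
    ring
  rw [e4, hd, Real.log_mul hm0.ne' h0.ne', Real.log_div h0.ne' hM0.ne']
  have e5 : (M - F τ) * Real.log (1 - F τ / M) =
      (M - F τ) * Real.log (M - F τ) - (M - F τ) * Real.log M := by
    rcases hMF.eq_or_lt with h6 | h6
    · rw [h6]
      simp
    · have h7 : 0 < M - F τ := by linarith
      have h8 : 1 - F τ / M = (M - F τ) / M := by field_simp
      rw [h8, Real.log_div h7.ne' hM0.ne']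
      ring
  rw [e5]
  ring

theorem stp_win_energy {m : ℕ} (hm : 1 ≤ m) {F : ℤ → ℝ} (h : DAdm m F) (τ : ℤ) :
    win m (fun x => (⌊x⌋ * (⌊x⌋ + 1) : ℝ) * mass (stp m F) x) τ ≤
      1 / m * (pen m τ * (wm m F τ + F (τ + m))) := by
  have hm0 : (0 : ℝ) < m := by exact_mod_cast hm
  have hle : (τ : ℝ) / m ≤ (τ + 1) / m := by gcongr; linarith
  have hp := stp_pre hm h
  have h1 : win m (fun x => (⌊x⌋ * (⌊x⌋ + 1) : ℝ) * mass (stp m F) x) τ ≤
      ∫ _x in (τ / m : ℝ)..((τ + 1) / m), pen m τ * (wm m F τ + F (τ + m)) := by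
    refine intervalIntegral.integral_mono_on_of_le_Ioo hle hp.energy_int.intervalIntegrable
      intervalIntegrable_const fun x hx => ?_
    rw [floor_win hm hx.1.le hx.2]
    exact mul_le_mul_of_nonneg_left (stp_mass_bd hm h hx.1.le hx.2.le).2 (pen_nonneg m τ)
  rw [intervalIntegral.integral_const, smul_eq_mul] at h1
  have h4 : ((τ : ℝ) + 1) / m - τ / m = 1 / m := by ring
  rwa [h4] at h1

theorem stp_J {κ : ℝ} (hκ : 0 ≤ κ) {m : ℕ} (hm : 1 ≤ m) {F : ℤ → ℝ} (h : DAdm m F) :
    -Real.log m - κ / m * ∑' τ : ℤ, pen m τ * (wm m F τ + F (τ + m)) -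
      ∑' τ : ℤ, (F τ * Real.log (F τ / wm m F τ) +
        (wm m F τ - F τ) * Real.log (1 - F τ / wm m F τ)) ≤ J κ (stp m F) := by
  have hm0 : (0 : ℝ) < m := by exact_mod_cast hm
  have ha := stp_adm hm h
  have hW := win_hasSum hm ha.int
  have hE := win_hasSum hm ha.energy_int
  have fF := h.fs
  have fM : FS (wm m F) := h.fs.wm
  have s1 : Summable fun τ => F τ * Real.log m := (fF.mul_right _).summable
  have s2 : Summable F := fF.summable
  have s3 : Summable fun τ : ℤ => F τ * Real.log (F τ / wm m F τ) +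
        (wm m F τ - F τ) * Real.log (1 - F τ / wm m F τ) :=
    ((fF.mul_right _).add ((fM.sub fF).mul_right _)).summable
  have h1 := Summable.tsum_le_tsum (stp_win_ent hm h) hW.summable ((s1.add s2).add s3)
  rw [hW.tsum_eq, (s1.add s2).tsum_add s3, s1.tsum_add s2, tsum_mul_right, h.total hm] at h1
  have s4 : Summable fun τ : ℤ => pen m τ * (wm m F τ + F (τ + m)) :=
    ((fM.add (fF.shift m)).mul_left _).summable
  have h2 := Summable.tsum_le_tsum (stp_win_energy hm h) hE.summable (s4.mul_left _)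
  rw [hE.tsum_eq, tsum_mul_left] at h2
  have h3 := mul_le_mul_of_nonneg_left h2 hκ
  have h4 : κ * (1 / m * ∑' τ : ℤ, pen m τ * (wm m F τ + F (τ + m))) =
      κ / m * ∑' τ : ℤ, pen m τ * (wm m F τ + F (τ + m)) := by ring
  rw [h4] at h3
  unfold J
  linarith

end Pool.Agent.Lib.MP_8501c9_pr.Var
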