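import Pool.Agent.Lib.MP_8501c9_pr.Var.Defs

/-!
# Sums of functions on the integers of finite support
-/

set_option autoImplicit false
open Set MeasureTheory

namespace Pool.Agent.Lib.MP_8501c9_pr.Var

theorem FS.summable {g : ℤ → ℝ} (h : FS g) : Summable g := by
  obtain ⟨L, hL⟩ := h
  refine summable_of_ne_finset_zero (s := Finset.Ioo (-(L : ℤ)) L) fun τ hτ => hL τ ?_
  by_contra hc
  push Not at hc
  rw [abs_lt] at hc
  exact hτ (Finset.mem_Ioo.2 hc)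

theorem FS.of_imp {g g' : ℤ → ℝ} (h : FS g) (hg : ∀ τ, g τ = 0 → g' τ = 0) : FS g' := by
  obtain ⟨L, hL⟩ := h
  exact ⟨L, fun τ hτ => hg τ (hL τ hτ)⟩

theorem FS.add {g g' : ℤ → ℝ} (h : FS g) (h' : FS g') : FS (fun τ => g τ + g' τ) := by
  obtain ⟨L, hL⟩ := h
  obtain ⟨L', hL'⟩ := h'
  refine ⟨max L L', fun τ hτ => ?_⟩
  push_cast at hτ
  show g τ + g' τ = 0
  rw [hL τ ((le_max_left _ _).trans hτ), hL' τ ((le_max_right _ _).trans hτ), add_zero]

theorem FS.mul_right {g : ℤ → ℝ} (h : FS g) (f : ℤ → ℝ) : FS (fun τ => g τ * f τ) :=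
  h.of_imp fun τ hτ => by rw [hτ, zero_mul]

theorem FS.mul_left {g : ℤ → ℝ} (h : FS g) (f : ℤ → ℝ) : FS (fun τ => f τ * g τ) :=
  h.of_imp fun τ hτ => by rw [hτ, mul_zero]

theorem FS.neg {g : ℤ → ℝ} (h : FS g) : FS (fun τ => -g τ) :=
  h.of_imp fun τ hτ => by rw [hτ, neg_zero]

theorem FS.sub {g g' : ℤ → ℝ} (h : FS g) (h' : FS g') : FS (fun τ => g τ - g' τ) := by
  have h1 := h.add h'.neg
  exact h1.of_imp fun τ hτ => by linarith

theorem FS.shift {g : ℤ → ℝ} (h : FS g) (c : ℤ) : FS (fun τ => g (τ + c)) := by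
  obtain ⟨L, hL⟩ := h
  refine ⟨L + c.natAbs, fun τ hτ => hL _ ?_⟩
  push_cast at hτ
  have h1 := abs_sub_abs_le_abs_sub (τ + c) c
  have h2 := abs_add_le (τ + c) (-c)
  rw [add_neg_cancel_right, abs_neg] at h2
  linarith

theorem FS.finset_sum {ι : Type*} (s : Finset ι) {g : ι → ℤ → ℝ} (h : ∀ i ∈ s, FS (g i)) :
    FS (fun τ => ∑ i ∈ s, g i τ) := by
  classical
  induction s using Finset.induction_on with
  | empty => exact ⟨0, fun τ _ => by simp⟩
  | insert a s ha ih =>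
    have h1 := (h a (Finset.mem_insert_self _ _)).add
      (ih fun i hi => h i (Finset.mem_insert_of_mem hi))
    exact h1.of_imp fun τ hτ => by rw [Finset.sum_insert ha]; exact hτ

theorem FS.wm {N : ℕ} {Φ : ℤ → ℝ} (h : FS Φ) : FS (wm N Φ) :=
  FS.finset_sum _ fun _ _ => h.shift _

theorem tsum_shift (g : ℤ → ℝ) (c : ℤ) : ∑' τ : ℤ, g (τ + c) = ∑' τ : ℤ, g τ :=
  (Equiv.addRight c).tsum_eq g

theorem wm_succ (N : ℕ) (Φ : ℤ → ℝ) (τ : ℤ) : wm N Φ (τ + 1) = wm N Φ τ - Φ τ + Φ (τ + N) := by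
  have h1 := Finset.sum_range_succ (fun i : ℕ => Φ (τ + i)) N
  have h2 := Finset.sum_range_succ' (fun i : ℕ => Φ (τ + i)) N
  rw [h1] at h2
  have h3 : ∑ i ∈ Finset.range N, Φ (τ + ((i + 1 : ℕ) : ℤ)) = wm N Φ (τ + 1) := by
    unfold wm
    refine Finset.sum_congr rfl fun i _ => ?_
    congr 1
    push_cast
    ring
  rw [h3] at h2
  simp only [Nat.cast_zero, add_zero] at h2
  unfold wm at h2 ⊢
  linarith

theorem le_wm {N : ℕ} (hN : 1 ≤ N) {Φ : ℤ → ℝ} (h : ∀ τ, 0 ≤ Φ τ) (τ : ℤ) : Φ τ ≤ wm N Φ τ := by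
  have h1 := Finset.single_le_sum (f := fun i : ℕ => Φ (τ + i)) (fun i _ => h _)
    (Finset.mem_range.2 (by omega : 0 < N))
  simp only [Nat.cast_zero, add_zero] at h1
  exact h1

theorem wm_nonneg {N : ℕ} {Φ : ℤ → ℝ} (h : ∀ τ, 0 ≤ Φ τ) (τ : ℤ) : 0 ≤ wm N Φ τ :=
  Finset.sum_nonneg fun _ _ => h _

theorem tsum_wm {N : ℕ} {Φ : ℤ → ℝ} (h : FS Φ) : ∑' τ, wm N Φ τ = N * ∑' τ, Φ τ := by
  have h1 : ∑' τ : ℤ, ∑ i ∈ Finset.range N, Φ (τ + i) =
      ∑ i ∈ Finset.range N, ∑' τ : ℤ, Φ (τ + i) :=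
    Summable.tsum_finsetSum fun i _ => (h.shift i).summable
  show ∑' τ : ℤ, ∑ i ∈ Finset.range N, Φ (τ + i) = N * ∑' τ, Φ τ
  rw [h1, Finset.sum_congr rfl fun (i : ℕ) _ => tsum_shift Φ (i : ℤ), Finset.sum_const, Finset.card_range,
    nsmul_eq_mul]

/-- division into blocks -/
theorem tsum_blocks {N : ℕ} (hN : 1 ≤ N) {g : ℤ → ℝ} (h : FS g) :
    ∑' τ, g τ = ∑' k : ℤ, ∑ i ∈ Finset.range N, g (k * N + i) := by
  have hNe : NeZero N := ⟨by omega⟩
  have h1 := (Int.divModEquiv N).symm.tsum_eq g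
  rw [← h1]
  have h2 : Summable fun x : ℤ × Fin N => g ((Int.divModEquiv N).symm x) :=
    (Int.divModEquiv N).symm.summable_iff.2 h.summable
  rw [h2.tsum_prod' fun b => (hasSum_fintype _).summable]
  refine tsum_congr fun k => ?_
  rw [tsum_fintype, Finset.sum_range]
  rfl

theorem FS.block {N : ℕ} (hN : 1 ≤ N) {g : ℤ → ℝ} (h : FS g) (i : ℤ) (hi : |i| ≤ N) :
    FS fun k : ℤ => g (k * N + i) := by
  obtain ⟨L, hL⟩ := h
  refine ⟨L + 1, fun k hk => hL _ ?_⟩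
  push_cast at hk
  have hN' : (1 : ℤ) ≤ N := by exact_mod_cast hN
  have h1 : |k * N| ≤ |k * N + i| + |i| := by
    have := abs_add_le (k * N + i) (-i)
    rwa [add_neg_cancel_right, abs_neg] at this
  rw [abs_mul, Nat.abs_cast] at h1
  nlinarith [abs_nonneg k]

/-- division into residue classes -/
theorem tsum_split {N : ℕ} (hN : 1 ≤ N) {g : ℤ → ℝ} (h : FS g) :
    ∑' τ, g τ = ∑ w ∈ Finset.range N, ∑' j : ℤ, g (w + j * N) := by
  rw [tsum_blocks hN h, Summable.tsum_finsetSum]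
  · refine Finset.sum_congr rfl fun w _ => tsum_congr fun j => ?_
    rw [add_comm]
  · intro i hi
    refine (h.block hN i ?_).summable
    rw [Nat.abs_cast]
    exact_mod_cast (Finset.mem_range.1 hi).le

theorem DAdm.total {N : ℕ} {Φ : ℤ → ℝ} (hN : 1 ≤ N) (h : DAdm N Φ) : ∑' τ, Φ τ = 1 := by
  have hN0 : (0 : ℝ) < N := by exact_mod_cast hN
  rw [tsum_split hN h.fs, Finset.sum_congr rfl fun w hw => h.tile w (Finset.mem_range.1 hw),
    Finset.sum_const, Finset.card_range, nsmul_eq_mul]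
  field_simp

theorem DAdm.le {N : ℕ} {Φ : ℤ → ℝ} (hN : 1 ≤ N) (h : DAdm N Φ) (τ : ℤ) : Φ τ ≤ 1 / N := by
  have hN' : (0 : ℤ) < N := by exact_mod_cast hN
  have h1 := h.tile (τ % N).toNat (by
    have := Int.emod_lt_of_pos τ hN'
    have := Int.emod_nonneg τ hN'.ne'
    omega)
  rw [← h1]
  have h2 : ((τ % N).toNat : ℤ) = τ % N := Int.toNat_of_nonneg (Int.emod_nonneg τ hN'.ne')
  rw [h2]
  have h3 : Φ (τ % N + τ / N * N) = Φ τ := by
    congr 1
    have := Int.emod_add_mul_ediv τ N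
    linarith
  rw [← h3]
  have hs : Summable fun j : ℤ => Φ (τ % N + j * N) := by
    have := (h.fs.block hN (τ % N) (by
      rw [abs_of_nonneg (Int.emod_nonneg τ hN'.ne')]
      exact (Int.emod_lt_of_pos τ hN').le)).summable
    refine this.congr fun j => ?_
    rw [add_comm]
  exact hs.le_tsum (τ / N) fun j _ => h.nonneg _

theorem tsum_wm_one {N : ℕ} {Φ : ℤ → ℝ} (hN : 1 ≤ N) (h : DAdm N Φ) : ∑' τ, wm N Φ τ = N := by
  rw [tsum_wm h.fs, h.total hN, mul_one]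

/-- telescoping bound -/
theorem sqrt_tel (ψ : ℕ → ℝ) (h : ∀ i, 0 ≤ ψ i) (n : ℕ) :
    ∑ i ∈ Finset.range n, ψ i / Real.sqrt (∑ l ∈ Finset.range (i + 1), ψ l) ≤
      2 * Real.sqrt (∑ l ∈ Finset.range n, ψ l) := by
  induction n with
  | zero => simp
  | succ n ih =>
    rw [Finset.sum_range_succ]
    set a : ℝ := ∑ l ∈ Finset.range n, ψ l with ha
    have ha0 : 0 ≤ a := Finset.sum_nonneg fun i _ => h i
    have hab : ∑ l ∈ Finset.range (n + 1), ψ l = a + ψ n := Finset.sum_range_succ _ _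
    rw [hab]
    have hb0 : 0 ≤ a + ψ n := by linarith [h n]
    have h1 : Real.sqrt a ≤ Real.sqrt (a + ψ n) := Real.sqrt_le_sqrt (by linarith [h n])
    have h2 := Real.mul_self_sqrt ha0
    have h3 := Real.mul_self_sqrt hb0
    have h4 : ψ n / Real.sqrt (a + ψ n) ≤ 2 * (Real.sqrt (a + ψ n) - Real.sqrt a) := by
      by_cases hz : Real.sqrt (a + ψ n) = 0
      · rw [hz, div_zero]
        have := Real.sqrt_nonneg a
        rw [hz] at h1
        linarith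
      · have hp : 0 < Real.sqrt (a + ψ n) := lt_of_le_of_ne (Real.sqrt_nonneg _) (Ne.symm hz)
        rw [div_le_iff₀ hp]
        nlinarith [Real.sqrt_nonneg a]
    linarith

/-- telescoping bound, in a block -/
theorem block_tel {N : ℕ} {Φ : ℤ → ℝ} (h : ∀ τ, 0 ≤ Φ τ) (k : ℤ) :
    ∑ i ∈ Finset.range N, Φ (k * N + i) / Real.sqrt (wm N Φ (k * N + i)) ≤
      2 * Real.sqrt (∑ i ∈ Finset.range N, Φ (k * N + i)) := by
  rw [← Finset.sum_range_reflect (fun i : ℕ => Φ (k * N + i) / Real.sqrt (wm N Φ (k * N + i)))]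
  rw [← Finset.sum_range_reflect (fun i : ℕ => Φ (k * N + i))]
  refine le_trans (Finset.sum_le_sum fun i hi => ?_)
    (sqrt_tel (fun i => Φ (k * N + (N - 1 - i : ℕ))) (fun i => h _) N)
  have hi' := Finset.mem_range.1 hi
  by_cases hz : Φ (k * N + (N - 1 - i : ℕ)) = 0
  · simp only [hz, zero_div]
    exact le_rfl
  have hp : 0 < Φ (k * N + (N - 1 - i : ℕ)) := lt_of_le_of_ne (h _) (Ne.symm hz)
  have h1 : ∑ l ∈ Finset.range (i + 1), Φ (k * N + (N - 1 - l : ℕ)) ≤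
      wm N Φ (k * N + (N - 1 - i : ℕ)) := by
    unfold wm
    rw [← Finset.sum_range_reflect (fun l : ℕ => Φ (k * N + (N - 1 - l : ℕ)))]
    refine le_trans (le_of_eq (Finset.sum_congr rfl fun l hl => ?_))
      (Finset.sum_le_sum_of_subset_of_nonneg (Finset.range_mono (by omega : i + 1 ≤ N))
        fun l _ _ => h _)
    have hl' := Finset.mem_range.1 hl
    congr 1
    have : N - 1 - (i + 1 - 1 - l) = N - 1 - i + l := by omega
    rw [this]
    push_cast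
    ring
  have h2 : 0 < ∑ l ∈ Finset.range (i + 1), Φ (k * N + (N - 1 - l : ℕ)) :=
    lt_of_lt_of_le hp (Finset.single_le_sum (f := fun l : ℕ => Φ (k * N + (N - 1 - l : ℕ)))
      (fun l _ => h _) (Finset.self_mem_range_succ i))
  exact div_le_div_of_nonneg_left hp.le (Real.sqrt_pos.2 h2) (Real.sqrt_le_sqrt h1)

end Pool.Agent.Lib.MP_8501c9_pr.Var
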