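import Pool.Agent.Lib.MP_8501c9_pr.Var.Main
import Mathlib.MeasureTheory.Integral.Prod

/-!
# The symmetric form of the functional
-/

set_option autoImplicit false
open Set MeasureTheory

namespace Pool.Agent.Lib.MP_8501c9_pr.Var

open Pool.Agent.Lib.MP_8501c9_pr.Wide

/-- the penalty as a function of the position -/
noncomputable def cf (x : ℝ) : ℝ := ⌊x⌋ * (⌊x⌋ + 1)

theorem cf_meas : Measurable cf := by
  have hf : Measurable fun x : ℝ => ((⌊x⌋ : ℤ) : ℝ) :=
    (measurable_from_top (f := fun z : ℤ => (z : ℝ))).comp Int.measurable_floor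
  exact hf.mul (hf.add_const 1)

theorem mass_shift (p : ℝ → ℝ) (a x : ℝ) : mass (fun y => p (y + a)) x = mass p (x + a) := by
  unfold mass
  rw [intervalIntegral.integral_comp_add_right]
  congr 1
  ring

theorem Adm.translate {p : ℝ → ℝ} (h : Adm p) (a : ℝ) : Adm fun x => p (x + a) := by
  refine ⟨⟨h.meas.comp (measurable_add_const a), fun x => h.nonneg _, ?_, fun x => ?_⟩, ?_⟩
  · obtain ⟨K, hK⟩ := h.supp
    refine ⟨K + |a|, fun x hx => hK _ ?_⟩
    have := abs_add_le (x + a) (-a)
    rw [abs_neg, add_neg_cancel_right] at this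
    linarith
  · rw [← h.tile (x + a)]
    refine tsum_congr fun k => ?_
    congr 1
    ring
  · have h1 := h.int.comp_add_right a
    refine h1.congr (Filter.Eventually.of_forall fun x => ?_)
    simp only [mass_shift]

/-- a periodic function is integrated over one period -/
theorem Pre.periodic {p : ℝ → ℝ} (h : Pre p) {g : ℝ → ℝ} (hg : Measurable g)
    (hper : ∀ (x : ℝ) (k : ℤ), g (x + k) = g x) {C : ℝ} (hC : ∀ x, |g x| ≤ C) :
    ∫ x, p x * g x = ∫ x in (0 : ℝ)..1, g x := by
  obtain ⟨K, hK1, hK⟩ := h.nat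
  have hint : Integrable fun x => p x * g x :=
    integrable_bdd (h.meas.mul hg).aestronglyMeasurable (K := K) (C := C) (fun x => by
      rw [abs_mul, abs_of_nonneg (h.nonneg x)]
      have h1 := h.le_one x
      have h2 := abs_nonneg (g x)
      nlinarith [hC x, h.nonneg x]) fun x hx => by rw [hK x hx, zero_mul]
  have h1 := win_hasSum (N := 1) le_rfl hint
  rw [← h1.tsum_eq]
  have h2 : ∀ j : ℤ, win 1 (fun x => p x * g x) j = ∫ x in (0 : ℝ)..1, p (x + j) * g x := by
    intro j
    have h3 : ∫ x in (0 : ℝ)..1, p (x + j) * g x = ∫ x in (0 : ℝ)..1, p (x + j) * g (x + j) := by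
      simp only [hper]
    rw [h3, intervalIntegral.integral_comp_add_right fun x => p x * g x]
    unfold win
    congr 1
    · simp
    · simp [add_comm]
  set S : Finset ℤ := Finset.Icc (-(K + 1 : ℤ)) (K + 1) with hS
  have h4 : ∀ x ∈ Icc (0 : ℝ) 1, ∀ j : ℤ, j ∉ S → p (x + j) = 0 := by
    intro x hx j hj
    apply hK
    rw [hS, Finset.mem_Icc, not_and_or] at hj
    rw [le_abs]
    rcases hj with hj | hj
    · right
      have h3 : (j : ℝ) ≤ -(K + 2 : ℝ) := by
        have : j ≤ -(K + 2 : ℤ) := by omega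
        exact_mod_cast this
      linarith [hx.2]
    · left
      have h3 : (K + 2 : ℝ) ≤ j := by
        have : (K + 2 : ℤ) ≤ j := by omega
        exact_mod_cast this
      linarith [hx.1]
  rw [tsum_congr h2, tsum_eq_sum (s := S)]
  · rw [← intervalIntegral.integral_finsetSum]
    · refine intervalIntegral.integral_congr fun x hx => ?_
      rw [uIcc_of_le zero_le_one] at hx
      show ∑ j ∈ S, p (x + j) * g x = g x
      rw [← Finset.sum_mul]
      have h5 : ∑ j ∈ S, p (x + j) = 1 := by
        rw [← h.tile x]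
        exact (tsum_eq_sum fun j hj => h4 x hx j hj).symm
      rw [h5, one_mul]
    · intro j _
      have h5 : Integrable fun x => p (x + j) * g (x + j) := hint.comp_add_right (j : ℝ)
      simp only [hper] at h5
      exact h5.intervalIntegrable
  · intro j hj
    refine intervalIntegral.integral_zero_ae (Filter.Eventually.of_forall fun x hx => ?_)
    rw [uIoc_of_le zero_le_one] at hx
    rw [h4 x ⟨hx.1.le, hx.2⟩ j hj, zero_mul]

theorem cf_const {k : ℤ} {x : ℝ} (h1 : (k : ℝ) ≤ x) (h2 : x < k + 1) : cf x = k * (k + 1) := by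
  unfold cf
  have : ⌊x⌋ = k := Int.floor_eq_iff.2 ⟨h1, h2⟩
  rw [this]

/-- the penalty integrated over an interval of length one -/
theorem cf_unit (y : ℝ) : ∫ s in (0 : ℝ)..1, cf (y - s) =
    (y - 1 / 2) ^ 2 - (Int.fract y - 1 / 2) ^ 2 := by
  set k : ℤ := ⌊y⌋ with hk
  have h1 : (k : ℝ) ≤ y := Int.floor_le y
  have h2 : y < k + 1 := Int.lt_floor_add_one y
  have hf : Int.fract y = y - k := rfl
  have e1 : ∫ s in (0 : ℝ)..(y - k), cf (y - s) = (y - k) * (k * (k + 1)) := by
    rw [int_congr (by linarith) (g := fun _ => (k * (k + 1) : ℝ)) fun s hs1 hs2 =>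
      cf_const (by linarith) (by linarith), intervalIntegral.integral_const, smul_eq_mul, sub_zero]
  have e2 : ∫ s in (y - k)..(1 : ℝ), cf (y - s) = (1 - (y - k)) * ((k - 1) * k) := by
    rw [int_congr (by linarith) (g := fun _ => ((k - 1) * k : ℝ)) fun s hs1 hs2 => by
      have h3 := cf_const (k := k - 1) (x := y - s) (by push_cast; linarith)
        (by push_cast; linarith)
      rw [h3]
      push_cast
      ring, intervalIntegral.integral_const, smul_eq_mul]
  have hi : ∀ a b : ℝ, IntervalIntegrable (fun s => cf (y - s)) volume a b := by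
    intro a b
    have hm : Measurable fun s : ℝ => cf (y - s) := cf_meas.comp (measurable_const.sub measurable_id)
    have hb : ∀ s ∈ uIoc a b, ‖cf (y - s)‖ ≤ (|y| + |a| + |b| + 1) * (|y| + |a| + |b| + 2) := by
      intro s hs
      have hs' : |s| ≤ |a| + |b| := by
        rw [uIoc, mem_Ioc] at hs
        rw [abs_le]
        constructor
        · have h3 : -(|a| + |b|) ≤ min a b := by
            rw [le_min_iff]
            constructor
            · linarith [neg_abs_le a, abs_nonneg b]
            · linarith [neg_abs_le b, abs_nonneg a]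
          linarith [hs.1]
        · have h3 : max a b ≤ |a| + |b| := by
            rw [max_le_iff]
            constructor
            · linarith [le_abs_self a, abs_nonneg b]
            · linarith [le_abs_self b, abs_nonneg a]
          linarith [hs.2]
      have h4 : |((⌊y - s⌋ : ℤ) : ℝ)| ≤ |y| + |a| + |b| + 1 := by
        have h5 := Int.floor_le (y - s)
        have h6 := Int.lt_floor_add_one (y - s)
        have h7 := abs_le.1 hs'
        have h8 := neg_abs_le y
        have h9 := le_abs_self y
        rw [abs_le]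
        constructor <;> linarith
      have h5 : |((⌊y - s⌋ : ℤ) : ℝ) + 1| ≤ |y| + |a| + |b| + 2 := by
        have := abs_add_le ((⌊y - s⌋ : ℤ) : ℝ) 1
        rw [abs_one] at this
        linarith
      unfold cf
      rw [Real.norm_eq_abs, abs_mul]
      exact mul_le_mul h4 h5 (abs_nonneg _) (by positivity)
    rw [intervalIntegrable_iff]
    exact Measure.integrableOn_of_bounded (by simp) hm.aestronglyMeasurable
      ((ae_restrict_iff' measurableSet_uIoc).2 (Filter.Eventually.of_forall hb))
  rw [← intervalIntegral.integral_add_adjacent_intervals (hi 0 (y - k)) (hi (y - k) 1), e1, e2, hf]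
  ring

theorem cf_bdd {L : ℕ} {x : ℝ} (hx : |x| < L) : |cf x| ≤ L * (L + 1) := by
  have h0 : 0 ≤ cf x := cfun_nonneg x
  rw [abs_of_nonneg h0]
  exact cfun_le hx

/-- the energy in terms of the second moment -/
theorem Pre.energy_sym {p : ℝ → ℝ} (h : Pre p) :
    ∫ x, cf x * mass p x = (∫ x, p x * (x - 1 / 2) ^ 2) - 1 / 12 := by
  obtain ⟨K, hK1, hK⟩ := h.nat
  set ν : Measure ℝ := volume.restrict (Ioc (0 : ℝ) 1) with hν
  have hν1 : IsFiniteMeasure ν := by
    rw [hν]
    exact ⟨by simp⟩
  set C : ℝ := (K + 1 : ℕ) * ((K + 1 : ℕ) + 1) with hC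
  have hC0 : 0 ≤ C := by positivity
  set G : ℝ → ℝ := indicator (Icc (-(K + 1 : ℝ)) (K + 1)) fun _ => C with hG
  have hGi : Integrable G volume := by
    rw [hG, integrable_indicator_iff measurableSet_Icc]
    exact integrableOn_const (by simp) (by simp)
  have hGp : Integrable (fun z : ℝ × ℝ => G z.1) (volume.prod ν) :=
    memLp_one_iff_integrable.1 (MemLp.comp_fst (memLp_one_iff_integrable.2 hGi) ν)
  have hae : ∀ᵐ z : ℝ × ℝ ∂((volume : Measure ℝ).prod ν), z.2 ∈ Ioc (0 : ℝ) 1 := by
    have h1 : ∀ᵐ s ∂ν, s ∈ Ioc (0 : ℝ) 1 := by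
      rw [hν]
      exact ae_restrict_mem measurableSet_Ioc
    exact (Measure.quasiMeasurePreserving_snd (μ := (volume : Measure ℝ)) (ν := ν)).ae h1
  have i1 : Integrable (fun z : ℝ × ℝ => cf z.1 * p (z.1 + z.2)) (volume.prod ν) := by
    refine hGp.mono' ?_ ?_
    · exact ((cf_meas.comp measurable_fst).mul
        (h.meas.comp (measurable_fst.add measurable_snd))).aestronglyMeasurable
    · filter_upwards [hae] with z hz
      rw [Real.norm_eq_abs, abs_mul, abs_of_nonneg (h.nonneg _)]
      rcases lt_or_ge |z.1| ((K + 1 : ℕ) : ℝ) with h1 | h1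
      · have h2 : z.1 ∈ Icc (-(K + 1 : ℝ)) (K + 1) := by
          push_cast at h1
          rw [abs_lt] at h1
          exact ⟨h1.1.le, h1.2.le⟩
        rw [hG, indicator_of_mem h2]
        calc |cf z.1| * p (z.1 + z.2) ≤ C * 1 :=
              mul_le_mul (cf_bdd h1) (h.le_one _) (h.nonneg _) hC0
          _ = C := mul_one C
      · have h2 : p (z.1 + z.2) = 0 := by
          apply hK
          push_cast at h1
          rw [le_abs] at h1 ⊢
          rcases h1 with h1 | h1
          · left
            linarith [hz.1]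
          · right
            linarith [hz.2]
        rw [h2, mul_zero, hG]
        exact indicator_nonneg (fun _ _ => hC0) _
  have i2 : Integrable (fun z : ℝ × ℝ => cf (z.1 - z.2) * p z.1) (volume.prod ν) := by
    refine hGp.mono' ?_ ?_
    · exact ((cf_meas.comp (measurable_fst.sub measurable_snd)).mul
        (h.meas.comp measurable_fst)).aestronglyMeasurable
    · filter_upwards [hae] with z hz
      rw [Real.norm_eq_abs, abs_mul, abs_of_nonneg (h.nonneg _)]
      rcases lt_or_ge |z.1| (K : ℝ) with h1 | h1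
      · have h2 : z.1 ∈ Icc (-(K + 1 : ℝ)) (K + 1) := by
          rw [abs_lt] at h1
          exact ⟨by linarith, by linarith⟩
        have h3 : |z.1 - z.2| < ((K + 1 : ℕ) : ℝ) := by
          push_cast
          rw [abs_lt] at h1 ⊢
          constructor
          · linarith [hz.2]
          · linarith [hz.1]
        rw [hG, indicator_of_mem h2]
        calc |cf (z.1 - z.2)| * p z.1 ≤ C * 1 :=
              mul_le_mul (cf_bdd h3) (h.le_one _) (h.nonneg _) hC0
          _ = C := mul_one C
      · rw [hK _ h1, mul_zero, hG]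
        exact indicator_nonneg (fun _ _ => hC0) _
  have e1 : ∀ x, cf x * mass p x = ∫ s, cf x * p (x + s) ∂ν := by
    intro x
    rw [integral_const_mul]
    congr 1
    unfold mass
    rw [hν, ← intervalIntegral.integral_of_le zero_le_one,
      intervalIntegral.integral_comp_add_left, add_zero]
  have e2 : ∀ s : ℝ, ∫ x, cf x * p (x + s) = ∫ x, cf (x - s) * p x := by
    intro s
    rw [← integral_sub_right_eq_self (fun x => cf x * p (x + s)) s]
    simp only [sub_add_cancel]
  have e3 : ∀ y, ∫ s, cf (y - s) * p y ∂ν =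
      p y * (y - 1 / 2) ^ 2 - p y * (Int.fract y - 1 / 2) ^ 2 := by
    intro y
    rw [integral_mul_const, hν, ← intervalIntegral.integral_of_le zero_le_one, cf_unit]
    ring
  have i3 : Integrable fun y => p y * (y - 1 / 2) ^ 2 :=
    integrable_bdd (h.meas.mul ((measurable_id.sub_const _).pow_const 2)).aestronglyMeasurable
      (K := K) (C := (K + 1) ^ 2) (fun x => by
        rcases lt_or_ge |x| (K : ℝ) with h1 | h1
        · rw [abs_mul, abs_of_nonneg (h.nonneg x), abs_of_nonneg (sq_nonneg _)]
          have h2 : (x - 1 / 2) ^ 2 ≤ (K + 1) ^ 2 := by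
            rw [abs_lt] at h1
            apply sq_le_sq'
            · linarith
            · linarith
          have h3 := h.le_one x
          have h4 := h.nonneg x
          have h5 := sq_nonneg (x - 1 / 2)
          nlinarith
        · rw [hK x h1, zero_mul, abs_zero]
          positivity) fun x hx => by rw [hK x hx, zero_mul]
  have hfm : Measurable fun y : ℝ => (Int.fract y - 1 / 2) ^ 2 :=
    (measurable_fract.sub_const _).pow_const 2
  have hfb : ∀ y : ℝ, |(Int.fract y - 1 / 2) ^ 2| ≤ 1 := by
    intro y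
    have h1 := Int.fract_nonneg y
    have h2 := Int.fract_lt_one y
    rw [abs_of_nonneg (sq_nonneg _)]
    nlinarith
  have i4 : Integrable fun y => p y * (Int.fract y - 1 / 2) ^ 2 :=
    integrable_bdd (h.meas.mul hfm).aestronglyMeasurable (K := K) (C := 1) (fun x => by
      rw [abs_mul, abs_of_nonneg (h.nonneg x)]
      have h1 := h.le_one x
      have h2 := hfb x
      have h3 := abs_nonneg ((Int.fract x - 1 / 2) ^ 2)
      nlinarith [h.nonneg x]) fun x hx => by rw [hK x hx, zero_mul]
  have e4 : ∫ y, p y * (Int.fract y - 1 / 2) ^ 2 = 1 / 12 := by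
    rw [h.periodic hfm (fun x k => by rw [Int.fract_add_intCast]) hfb]
    rw [int_congr zero_le_one (g := fun x : ℝ => (x - 1 / 2) ^ 2) fun x h1 h2 => by
      rw [Int.fract_eq_self.2 ⟨h1.le, h2⟩]]
    rw [intervalIntegral.integral_comp_sub_right (fun x => x ^ 2), integral_pow]
    norm_num
  calc ∫ x, cf x * mass p x = ∫ x, ∫ s, cf x * p (x + s) ∂ν := integral_congr_ae
        (Filter.Eventually.of_forall e1)
    _ = ∫ s, (∫ x, cf x * p (x + s)) ∂ν := integral_integral_swap i1
    _ = ∫ s, (∫ x, cf (x - s) * p x) ∂ν := integral_congr_ae (Filter.Eventually.of_forall e2)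
    _ = ∫ x, ∫ s, cf (x - s) * p x ∂ν := (integral_integral_swap i2).symm
    _ = ∫ y, (p y * (y - 1 / 2) ^ 2 - p y * (Int.fract y - 1 / 2) ^ 2) :=
        integral_congr_ae (Filter.Eventually.of_forall e3)
    _ = _ := by rw [integral_sub i3 i4, e4]

/-- the functional, symmetric form -/
noncomputable def En (κ : ℝ) (p : ℝ → ℝ) : ℝ :=
  ∫ x, p x * (κ * x ^ 2 + Real.log (p x / mass p x))

theorem J_eq (κ : ℝ) {p : ℝ → ℝ} (h : Adm p) :
    J κ p = 1 + κ / 12 - En κ (fun x => p (x + 1 / 2)) := by
  obtain ⟨K, hK1, hK⟩ := h.nat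
  have i3 : Integrable fun y => p y * (y - 1 / 2) ^ 2 :=
    integrable_bdd (h.meas.mul ((measurable_id.sub_const _).pow_const 2)).aestronglyMeasurable
      (K := K) (C := (K + 1) ^ 2) (fun x => by
        rcases lt_or_ge |x| (K : ℝ) with h1 | h1
        · rw [abs_mul, abs_of_nonneg (h.nonneg x), abs_of_nonneg (sq_nonneg _)]
          have h2 : (x - 1 / 2) ^ 2 ≤ (K + 1) ^ 2 := by
            rw [abs_lt] at h1
            apply sq_le_sq'
            · linarith
            · linarith
          have h3 := h.le_one x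
          have h4 := h.nonneg x
          have h5 := sq_nonneg (x - 1 / 2)
          nlinarith
        · rw [hK x h1, zero_mul, abs_zero]
          positivity) fun x hx => by rw [hK x hx, zero_mul]
  have e1 : En κ (fun x => p (x + 1 / 2)) =
      ∫ x, (κ * (p x * (x - 1 / 2) ^ 2) + p x * Real.log (p x / mass p x)) := by
    unfold En
    rw [← integral_sub_right_eq_self _ (1 / 2 : ℝ)]
    refine integral_congr_ae (Filter.Eventually.of_forall fun x => ?_)
    simp only [mass_shift, sub_add_cancel]
    ring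
  rw [e1, integral_add (i3.const_mul κ) h.int, integral_const_mul]
  have e2 : ∫ x, p x * (x - 1 / 2) ^ 2 = (∫ x, cf x * mass p x) + 1 / 12 := by
    rw [h.energy_sym]
    ring
  rw [e2]
  unfold J cf
  ring

/-- the value of the variational problem, symmetric form -/
noncomputable def Vsym (κ : ℝ) : ℝ := 1 + κ / 12 - ⨅ p : {p : ℝ → ℝ // Adm p}, En κ p

theorem Vsym_eq {κ : ℝ} (hκ : 0 < κ) : Vsym κ = Vvar κ := by
  have hne := Vvar_nonempty hκ
  have hbd := Vvar_bdd hκ.le
  have h1 : ∀ p : {p : ℝ → ℝ // Adm p}, 1 + κ / 12 - Vvar κ ≤ En κ p := by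
    intro p
    have h2 := J_eq κ (p.2.translate (-(1 / 2)))
    simp only [add_neg_cancel_right] at h2
    have h3 : J κ (fun x => p.1 (x + -(1 / 2))) ≤ Vvar κ :=
      le_ciSup hbd ⟨_, p.2.translate (-(1 / 2))⟩
    linarith
  unfold Vsym
  apply le_antisymm
  · have := le_ciInf h1
    linarith
  · refine ciSup_le fun p => ?_
    have h2 := J_eq κ p.2
    have h3 : ⨅ p : {p : ℝ → ℝ // Adm p}, En κ p ≤ En κ (fun x => p.1 (x + 1 / 2)) :=
      ciInf_le ⟨_, by rintro _ ⟨q, rfl⟩; exact h1 q⟩
        (⟨_, p.2.translate (1 / 2)⟩ : {p : ℝ → ℝ // Adm p})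
    linarith

end Pool.Agent.Lib.MP_8501c9_pr.Var
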